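import Pool.Agent.Lib_helper64.DD_QT
import Pool.Agent.Lib_helper64.DD_U
import Pool.Agent.Lib_helper68.DD_FA
import Pool.Agent.Lib_helper56.DD_FB
import Pool.Agent.Lib_helper51.DD_FC
import Pool.Agent.Lib_helper96.DD_FD
import Pool.Agent.Lib_helper96.DD_M1
import Pool.Agent.Lib_helper68.DD_M2
import Pool.Agent.Lib_helper68.DD_M3
import Pool.Agent.Lib_helper9.DD_M4
import Pool.Agent.Lib_helper38.DD_M5
import Pool.Agent.Lib_helper9.DD_V
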