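import Mathlib

/-!
# MP_a2cbb7_co : definitions shared by all blocks (distinct distances from one point)
The plane is `ℂ`.
-/

set_option autoImplicit false

namespace Pool.Agent.DD

open Finset Classical

noncomputable section

/-- no four points of `A` on a circle -/
def NC (A : Finset ℂ) : Prop := ∀ (z : ℂ) (r : ℝ), (A.filter (fun p => dist p z = r)).card ≤ 3

/-- number of distinct distances from `x` to the other points of `A` -/
def D (A : Finset ℂ) (x : ℂ) : ℕ := ((A.erase x).image (fun y => dist x y)).card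

/-- the points of `A` at the same distance from `x` as `a` -/
def cls (A : Finset ℂ) (x a : ℂ) : Finset ℂ := A.filter (fun b => dist b x = dist a x)

/-- `a` is in an equidistant triple at `x` -/
def Reg (A : Finset ℂ) (x a : ℂ) : Prop := (cls A x a).card = 3

/-- number of points of `A` in the closed disc `B(x,r)` -/
def M (A : Finset ℂ) (x : ℂ) (r : ℝ) : ℕ := (A.filter (fun a => dist a x ≤ r)).card

/-- closed upper half-plane bounded by the line of slope `s` through `x` -/
def Up (s : ℝ) (x a : ℂ) : Prop := s * (a.re - x.re) ≤ a.im - x.im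

/-- every `x ∈ E` has a nearly horizontal line above which there are at most `h` points of `A` -/
structure Chain (A E : Finset ℂ) (σ : ℂ → ℝ) (τ h : ℝ) : Prop where
  sub : E ⊆ A
  slope : ∀ x ∈ E, |σ x| ≤ τ
  low : ∀ x ∈ E, ((A.filter (fun a => Up (σ x) x a)).card : ℝ) ≤ h

/-- the line through `a` and `b` (for `a ≠ b`) -/
def ln (a b : ℂ) : Set ℂ := {p | (b - a).re * (p - a).im = (b - a).im * (p - a).re}

/-- the perpendicular bisector of `a`, `b` -/
def bis (a b : ℂ) : Set ℂ := {p | dist p a = dist p b}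

/-- a line -/
def IsLine (l : Set ℂ) : Prop :=
  ∃ α β γ : ℝ, (α ≠ 0 ∨ β ≠ 0) ∧ l = {p : ℂ | α * p.re + β * p.im = γ}

/-- number of points of `A` on `l` -/
def on (A : Finset ℂ) (l : Set ℂ) : ℕ := (A.filter (fun p => p ∈ l)).card

/-- `(x,a,b)`, `x ∈ E` equidistant from `a ≠ b` in `A`, the line `ab` has `< q` points of `A`
and the bisector has at least three points of `E` -/
def richUse (A E : Finset ℂ) (q : ℝ) : Finset (ℂ × ℂ × ℂ) :=
  (E ×ˢ A ×ˢ A).filter (fun t => t.2.1 ≠ t.2.2 ∧ dist t.1 t.2.1 = dist t.1 t.2.2 ∧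
    (on A (ln t.2.1 t.2.2) : ℝ) < q ∧ 3 ≤ on E (bis t.2.1 t.2.2))

/-- lines spanned by `A` with at least `q` points -/
def heavy (A : Finset ℂ) (q : ℝ) : Finset (Set ℂ) :=
  (A.offDiag.image (fun t => ln t.1 t.2)).filter (fun l => q ≤ (on A l : ℝ))

/-- number of pairs `(x,a)`, `x ∈ X`, `a ∈ Y`, with `a` in an equidistant triple of `Y` at `x` -/
def tripPairs (X Y : Finset ℂ) : ℕ := ∑ x ∈ X, (Y.filter (fun a => (cls Y x a).card = 3)).card

/-- expectation of `f` on a random subset of `A` (every element with probability `p`) -/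
def ex {α : Type*} [DecidableEq α] (p : ℝ) (A : Finset α) (f : Finset α → ℝ) : ℝ :=
  ∑ R ∈ A.powerset, p ^ R.card * (1 - p) ^ (A.card - R.card) * f R

/-- smallest radius at which the disc around `x` has at least `m` points -/
def rho (A : Finset ℂ) (x : ℂ) (m : ℝ) : ℝ := sInf {r : ℝ | 0 ≤ r ∧ m ≤ (M A x r : ℝ)}

/-- level `m` is lacunary at `x` : the disc of radius `2 ρ` has at least `R m` points -/
def Lac (A : Finset ℂ) (R : ℝ) (x : ℂ) (m : ℝ) : Prop := R * m ≤ (M A x (2 * rho A x m) : ℝ)

/-- the pairs over which the weights are summed -/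
def prs (A E₀ : Finset ℂ) (μ : ℝ) : Finset (ℂ × ℂ) :=
  (E₀ ×ˢ A).filter (fun t => t.2 ≠ t.1 ∧ Reg A t.1 t.2 ∧ μ ≤ (M A t.1 (dist t.2 t.1) : ℝ))

end

end Pool.Agent.DD
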