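import Pool.Agent.Lib_helper60.DD.Main

set_option autoImplicit false

namespace Pool.Agent.DD.H60

open Finset Classical

noncomputable section

/-! ### isometric images -/

theorem NC_image (A : Finset ℂ) (hA : NC A) (ζ : ℂ) (hζ : ‖ζ‖ = 1) : NC (A.image (fun a => ζ * a)) := by
  intro z r
  have hζ0 : ζ ≠ 0 := by
    intro h; rw [h] at hζ; simp at hζ
  refine le_trans ?_ (hA (ζ⁻¹ * z) r)
  calc ((A.image (fun a => ζ * a)).filter (fun p => dist p z = r)).card
      ≤ ((A.filter (fun p => dist p (ζ⁻¹ * z) = r)).image (fun a => ζ * a)).card := by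
        apply Finset.card_le_card
        intro p hp
        rw [Finset.mem_filter, Finset.mem_image] at hp
        obtain ⟨⟨a, ha, rfl⟩, hd⟩ := hp
        rw [Finset.mem_image]
        refine ⟨a, Finset.mem_filter.mpr ⟨ha, ?_⟩, rfl⟩
        rw [Complex.dist_eq] at hd ⊢
        have : a - ζ⁻¹ * z = ζ⁻¹ * (ζ * a - z) := by
          rw [mul_sub, ← mul_assoc, inv_mul_cancel₀ hζ0, one_mul]
        rw [this, norm_mul, norm_inv, hζ, inv_one, one_mul]
        exact hd
    _ ≤ _ := Finset.card_image_le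

theorem D_image (A : Finset ℂ) (ζ : ℂ) (hζ : ‖ζ‖ = 1) (x : ℂ) :
    D (A.image (fun a => ζ * a)) (ζ * x) ≤ D A x := by
  have hζ0 : ζ ≠ 0 := by
    intro h; rw [h] at hζ; simp at hζ
  unfold D
  apply Finset.card_le_card
  intro r hr
  rw [Finset.mem_image] at hr ⊢
  obtain ⟨y, hy, rfl⟩ := hr
  rw [Finset.mem_erase, Finset.mem_image] at hy
  obtain ⟨hne, a, ha, rfl⟩ := hy
  refine ⟨a, Finset.mem_erase.mpr ⟨fun h => hne (by rw [h]), ha⟩, ?_⟩
  rw [Complex.dist_eq, Complex.dist_eq, ← mul_sub, norm_mul, hζ, one_mul]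

theorem card_image_mul (A : Finset ℂ) (ζ : ℂ) (hζ : ‖ζ‖ = 1) :
    (A.image (fun a => ζ * a)).card = A.card := by
  have hζ0 : ζ ≠ 0 := by
    intro h; rw [h] at hζ; simp at hζ
  exact Finset.card_image_of_injective _ (mul_right_injective₀ hζ0)

/-- the inner product is invariant under rotation -/
theorem inner_rot (ζ u w : ℂ) (hζ : ‖ζ‖ = 1) :
    (ζ * w).re * (ζ * u).re + (ζ * w).im * (ζ * u).im = w.re * u.re + w.im * u.im := by
  have h : ζ.re ^ 2 + ζ.im ^ 2 = 1 := by
    have := Complex.sq_norm ζ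
    rw [hζ, Complex.normSq_apply] at this
    nlinarith
  simp only [Complex.mul_re, Complex.mul_im]
  linear_combination (w.re * u.re + w.im * u.im) * h

theorem rot_normal (u : ℂ) (hu : u ≠ 0) (k : ℤ) (h1 : (k : ℝ) / 25 ≤ Complex.arg u)
    (h2 : Complex.arg u < (k + 1) / 25) :
    ∃ ζ : ℂ, ζ = Complex.exp ((Real.pi / 2 - (k : ℝ) / 25 : ℝ) * Complex.I) ∧
      0 < (ζ * u).im ∧ |(ζ * u).re| ≤ (ζ * u).im / 20 := by
  refine ⟨_, rfl, ?_⟩
  obtain ⟨δ, hδ⟩ : ∃ δ : ℝ, δ = Complex.arg u - (k : ℝ) / 25 := ⟨_, rfl⟩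
  have hδ0 : 0 ≤ δ := by rw [hδ]; linarith
  have hδ1 : δ ≤ 1 / 25 := by rw [hδ]; linarith [h2, (by ring : ((k:ℝ) + 1) / 25 = k / 25 + 1 / 25)]
  have hn : 0 < ‖u‖ := norm_pos_iff.mpr hu
  have key : Complex.exp ((Real.pi / 2 - (k : ℝ) / 25 : ℝ) * Complex.I) * u =
      (‖u‖ : ℝ) * Complex.exp (((Real.pi / 2 + δ : ℝ) : ℂ) * Complex.I) := by
    conv_lhs => rw [← Complex.norm_mul_exp_arg_mul_I u]
    rw [mul_left_comm, ← Complex.exp_add]
    congr 2
    rw [hδ]
    push_cast
    ring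
  have hre : (Complex.exp ((Real.pi / 2 - (k : ℝ) / 25 : ℝ) * Complex.I) * u).re =
      - (‖u‖ * Real.sin δ) := by
    rw [key, Complex.re_ofReal_mul, Complex.exp_ofReal_mul_I_re, add_comm, Real.cos_add_pi_div_two]
    ring
  have him : (Complex.exp ((Real.pi / 2 - (k : ℝ) / 25 : ℝ) * Complex.I) * u).im =
      ‖u‖ * Real.cos δ := by
    rw [key, Complex.im_ofReal_mul, Complex.exp_ofReal_mul_I_im, add_comm, Real.sin_add_pi_div_two]
  rw [hre, him]
  have hs0 : 0 ≤ Real.sin δ := Real.sin_nonneg_of_nonneg_of_le_pi hδ0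
    (by linarith [Real.pi_gt_three])
  have hs1 : Real.sin δ ≤ 1 / 25 := (Real.sin_le hδ0).trans hδ1
  have hc : 1 - δ ^ 2 / 2 ≤ Real.cos δ := Real.one_sub_sq_div_two_le_cos
  have hc' : (24 / 25 : ℝ) ≤ Real.cos δ := by nlinarith
  refine ⟨by positivity, ?_⟩
  rw [abs_neg, abs_of_nonneg (by positivity)]
  have : Real.sin δ ≤ Real.cos δ / 20 := by linarith
  calc ‖u‖ * Real.sin δ ≤ ‖u‖ * (Real.cos δ / 20) := mul_le_mul_of_nonneg_left this hn.le
    _ = _ := by ring

theorem reduce : ∃ c : ℝ, 0 < c ∧ ∃ N : ℕ, ∀ A : Finset ℂ, NC A → N ≤ A.card →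
    ∃ x ∈ A, (1/3 + c) * A.card < (D A x : ℝ) := by
  obtain ⟨β, hβ, hfar⟩ := far_mass
  obtain ⟨d, hd, c₁, hc₁, N₁, hmain⟩ := main_chain' (β / 161) (by positivity)
  obtain ⟨c₂, hc₂, N₂, hfar⟩ := hfar d hd
  refine ⟨min c₁ c₂, lt_min hc₁ hc₂, N₁ + N₂ + 1, ?_⟩
  intro A hA hN
  by_contra hcon
  push Not at hcon
  have hn : 0 < A.card := by omega
  have hn' : (0:ℝ) < A.card := by exact_mod_cast hn
  have hD₁ : ∀ x ∈ A, (D A x : ℝ) ≤ (1/3 + c₁) * A.card := fun x hx =>
    (hcon x hx).trans (mul_le_mul_of_nonneg_right (by linarith [min_le_left c₁ c₂]) hn'.le)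
  have hD₂ : ∀ x ∈ A, (D A x : ℝ) ≤ (1/3 + c₂) * A.card := fun x hx =>
    (hcon x hx).trans (mul_le_mul_of_nonneg_right (by linarith [min_le_right c₁ c₂]) hn'.le)
  have hF := hfar A hA (by omega) hD₂
  set F := A.filter (fun v => ∃ u : ℂ, u ≠ 0 ∧
      ((A.filter (fun a => 0 ≤ (a - v).re * u.re + (a - v).im * u.im)).card : ℝ) ≤ d * A.card) with hFdef
  have hch : ∀ v : ℂ, ∃ u : ℂ, v ∈ F → u ≠ 0 ∧
      ((A.filter (fun a => 0 ≤ (a - v).re * u.re + (a - v).im * u.im)).card : ℝ) ≤ d * A.card := by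
    intro v
    by_cases hv : v ∈ F
    · obtain ⟨u, hu⟩ := (Finset.mem_filter.mp hv).2
      exact ⟨u, fun _ => hu⟩
    · exact ⟨0, fun h => absurd h hv⟩
  choose u hu using hch
  -- sector index
  set κ : ℂ → ℤ := fun v => ⌊25 * Complex.arg (u v)⌋ with hκ
  have hκmem : ∀ v ∈ F, κ v ∈ Finset.Icc (-80 : ℤ) 80 := by
    intro v _
    have h1 := Complex.neg_pi_lt_arg (u v)
    have h2 := Complex.arg_le_pi (u v)
    have h3 := Real.pi_lt_d2
    rw [Finset.mem_Icc]
    constructor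
    · apply Int.le_floor.mpr
      push_cast
      linarith
    · have : ((κ v : ℤ) : ℝ) ≤ 25 * Complex.arg (u v) := Int.floor_le _
      have h4 : ((κ v : ℤ) : ℝ) < 81 := by linarith
      have h5 : κ v < 81 := by exact_mod_cast h4
      omega
  have hclass : ∀ k ∈ Finset.Icc (-80 : ℤ) 80,
      ((F.filter (fun v => κ v = k)).card : ℝ) < β / 161 * A.card := by
    intro k _
    set ζ : ℂ := Complex.exp ((Real.pi / 2 - (k : ℝ) / 25 : ℝ) * Complex.I) with hζ
    have hζ1 : ‖ζ‖ = 1 := Complex.norm_exp_ofReal_mul_I _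
    have hζ0 : ζ ≠ 0 := by
      intro h; rw [h] at hζ1; simp at hζ1
    set A' := A.image (fun a => ζ * a) with hA'
    set E' := (F.filter (fun v => κ v = k)).image (fun a => ζ * a) with hE'
    have hcA : A'.card = A.card := card_image_mul A ζ hζ1
    have hcE : E'.card = (F.filter (fun v => κ v = k)).card := card_image_mul _ ζ hζ1
    have hrot : ∀ v ∈ F.filter (fun v => κ v = k), 0 < (ζ * u v).im ∧
        |(ζ * u v).re| ≤ (ζ * u v).im / 20 := by
      intro v hv
      rw [Finset.mem_filter] at hv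
      have hu0 := (hu v hv.1).1
      have hk : ⌊25 * Complex.arg (u v)⌋ = k := hv.2
      have h1 : (k : ℝ) ≤ 25 * Complex.arg (u v) := by rw [← hk]; exact Int.floor_le _
      have h2 : 25 * Complex.arg (u v) < k + 1 := by rw [← hk]; exact Int.lt_floor_add_one _
      obtain ⟨ζ', hζ', h3, h4⟩ := rot_normal (u v) hu0 k (by linarith) (by linarith)
      rw [← hζ] at hζ'
      rw [hζ'] at h3 h4
      exact ⟨h3, h4⟩
    have hchain : Chain A' E' (fun v' => - (ζ * u (ζ⁻¹ * v')).re / (ζ * u (ζ⁻¹ * v')).im) (1/20)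
        (d * A'.card) := by
      refine ⟨?_, ?_, ?_⟩
      · rw [hE', hA']
        apply Finset.image_subset_image
        exact (Finset.filter_subset _ _).trans (Finset.filter_subset _ _)
      · intro v' hv'
        rw [hE', Finset.mem_image] at hv'
        obtain ⟨v, hv, rfl⟩ := hv'
        obtain ⟨h3, h4⟩ := hrot v hv
        rw [← mul_assoc, inv_mul_cancel₀ hζ0, one_mul, abs_div, abs_neg, abs_of_pos h3,
          div_le_iff₀ h3]
        linarith
      · intro v' hv'
        rw [hE', Finset.mem_image] at hv'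
        obtain ⟨v, hv, rfl⟩ := hv'
        obtain ⟨h3, h4⟩ := hrot v hv
        have hvF : v ∈ F := (Finset.mem_filter.mp hv).1
        rw [hcA]
        refine le_trans ?_ (hu v hvF).2
        have : (A'.filter (fun a => Up (- (ζ * u (ζ⁻¹ * (ζ * v))).re / (ζ * u (ζ⁻¹ * (ζ * v))).im)
            (ζ * v) a)).card ≤
            ((A.filter (fun a => 0 ≤ (a - v).re * (u v).re + (a - v).im * (u v).im)).image
              (fun a => ζ * a)).card := by
          apply Finset.card_le_card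
          intro a' ha'
          rw [Finset.mem_filter, hA', Finset.mem_image] at ha'
          obtain ⟨⟨a, ha, rfl⟩, hup⟩ := ha'
          rw [Finset.mem_image]
          refine ⟨a, Finset.mem_filter.mpr ⟨ha, ?_⟩, rfl⟩
          rw [← mul_assoc, inv_mul_cancel₀ hζ0, one_mul] at hup
          unfold Up at hup
          rw [div_mul_eq_mul_div, div_le_iff₀ h3] at hup
          rw [← inner_rot ζ (u v) (a - v) hζ1, mul_sub, Complex.sub_re, Complex.sub_im]
          linarith
        exact_mod_cast this.trans Finset.card_image_le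
    have := hmain A' E' _ (NC_image A hA ζ hζ1) (by rw [hcA]; omega) (by
      intro x' hx'
      rw [hA', Finset.mem_image] at hx'
      obtain ⟨x, hx, rfl⟩ := hx'
      rw [hcA]
      refine le_trans ?_ (hD₁ x hx)
      exact_mod_cast D_image A ζ hζ1 x) hchain
    rw [hcA, hcE] at this
    exact this
  have hsum : (F.card : ℝ) = ∑ k ∈ Finset.Icc (-80 : ℤ) 80,
      ((F.filter (fun v => κ v = k)).card : ℝ) := by
    exact_mod_cast Finset.card_eq_sum_card_fiberwise hκmem
  have hlt : (F.card : ℝ) < β * A.card := by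
    rw [hsum]
    calc ∑ k ∈ Finset.Icc (-80 : ℤ) 80, ((F.filter (fun v => κ v = k)).card : ℝ)
        < ∑ k ∈ Finset.Icc (-80 : ℤ) 80, β / 161 * A.card :=
          Finset.sum_lt_sum_of_nonempty ⟨0, by simp⟩ hclass
      _ = β * A.card := by
          rw [Finset.sum_const, Int.card_Icc, nsmul_eq_mul]
          have : ((80 + 1 - -80 : ℤ).toNat : ℝ) = 161 := by
            have h : (80 + 1 - -80 : ℤ).toNat = 161 := by decide
            rw [h]; norm_num
          rw [this]
          ring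
  linarith

theorem final : ∃ c : ℝ, 0 < c ∧ ∃ N : ℕ, ∀ n : ℕ, N ≤ n →
      ∀ S : Finset (EuclideanSpace ℝ (Fin 2)), S.card = n →
        (∀ z : EuclideanSpace ℝ (Fin 2), ∀ r : ℝ,
          (S.filter (fun p => dist p z = r)).card ≤ 3) →
        ∃ x ∈ S, ((1 : ℝ) / 3 + c) * (n : ℝ) <
          (((S.erase x).image (fun y => dist x y)).card : ℝ) := by
  obtain ⟨c, hc, N, h⟩ := reduce
  refine ⟨c, hc, N, ?_⟩
  intro n hn S hS hcirc
  set φ : EuclideanSpace ℝ (Fin 2) ≃ₗᵢ[ℝ] ℂ := Complex.orthonormalBasisOneI.repr.symm with hφ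
  have hinj : Function.Injective (φ : EuclideanSpace ℝ (Fin 2) → ℂ) := φ.injective
  have hcard : (S.image φ).card = n := by
    rw [Finset.card_image_of_injective _ hinj, hS]
  have hNC : NC (S.image φ) := by
    intro z r
    refine le_trans ?_ (hcirc (φ.symm z) r)
    calc ((S.image φ).filter (fun p => dist p z = r)).card
        ≤ ((S.filter (fun p => dist p (φ.symm z) = r)).image φ).card := by
          apply Finset.card_le_card
          intro p hp
          rw [Finset.mem_filter, Finset.mem_image] at hp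
          obtain ⟨⟨a, ha, rfl⟩, hd⟩ := hp
          rw [Finset.mem_image]
          refine ⟨a, Finset.mem_filter.mpr ⟨ha, ?_⟩, rfl⟩
          rw [← hd, ← φ.dist_map a (φ.symm z), φ.apply_symm_apply]
      _ ≤ _ := Finset.card_image_le
  obtain ⟨x', hx', hlt⟩ := h (S.image φ) hNC (by rw [hcard]; exact hn)
  rw [Finset.mem_image] at hx'
  obtain ⟨x, hx, rfl⟩ := hx'
  refine ⟨x, hx, ?_⟩
  rw [hcard] at hlt
  refine lt_of_lt_of_le hlt ?_
  have : D (S.image φ) (φ x) ≤ ((S.erase x).image (fun y => dist x y)).card := by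
    unfold D
    apply Finset.card_le_card
    intro r hr
    rw [Finset.mem_image] at hr ⊢
    obtain ⟨y', hy', rfl⟩ := hr
    rw [Finset.mem_erase, Finset.mem_image] at hy'
    obtain ⟨hne, y, hy, rfl⟩ := hy'
    exact ⟨y, Finset.mem_erase.mpr ⟨fun h => hne (by rw [h]), hy⟩, (φ.dist_map x y).symm⟩
  exact_mod_cast this

end

end Pool.Agent.DD.H60
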