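import Pool.Agent.Lib_helper60.DD.Upper

set_option autoImplicit false

namespace Pool.Agent.DD.H60

open Finset Classical

noncomputable section

/-- three collinear points are not equidistant from a point -/
theorem not_collinear_equi (e x f g : ℂ) (hf : f ≠ x) (hg : g ≠ x) (hfg : f ≠ g)
    (h1 : dist f e = dist x e) (h2 : dist g e = dist x e) : g ∉ ln x f := by
  intro h
  simp only [ln, Set.mem_ofPred_eq, Complex.sub_re, Complex.sub_im] at h
  have k1 : (f.re - e.re) ^ 2 + (f.im - e.im) ^ 2 = (x.re - e.re) ^ 2 + (x.im - e.im) ^ 2 := by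
    have := congrArg (fun t : ℝ => t ^ 2) h1
    simp only [Complex.dist_eq, Complex.sq_norm, Complex.normSq_apply, Complex.sub_re,
      Complex.sub_im] at this
    nlinarith
  have k2 : (g.re - e.re) ^ 2 + (g.im - e.im) ^ 2 = (x.re - e.re) ^ 2 + (x.im - e.im) ^ 2 := by
    have := congrArg (fun t : ℝ => t ^ 2) h2
    simp only [Complex.dist_eq, Complex.sq_norm, Complex.normSq_apply, Complex.sub_re,
      Complex.sub_im] at this
    nlinarith
  obtain ⟨a, ha⟩ : ∃ a, a = f.re - x.re := ⟨_, rfl⟩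
  obtain ⟨b, hb⟩ : ∃ b, b = f.im - x.im := ⟨_, rfl⟩
  obtain ⟨c, hc⟩ : ∃ c, c = g.re - x.re := ⟨_, rfl⟩
  obtain ⟨d, hd⟩ : ∃ d, d = g.im - x.im := ⟨_, rfl⟩
  obtain ⟨p, hp⟩ : ∃ p, p = e.re - x.re := ⟨_, rfl⟩
  obtain ⟨q, hq⟩ : ∃ q, q = e.im - x.im := ⟨_, rfl⟩
  have e1 : a * d = b * c := by rw [ha, hb, hc, hd]; linarith
  have e2 : 2 * (p * a + q * b) = a ^ 2 + b ^ 2 := by rw [ha, hb, hp, hq]; nlinarith
  have e3 : 2 * (p * c + q * d) = c ^ 2 + d ^ 2 := by rw [hc, hd, hp, hq]; nlinarith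
  have e4 : (a ^ 2 + b ^ 2) * c = a * (c ^ 2 + d ^ 2) := by
    linear_combination (-c) * e2 + a * e3 - 2 * q * e1
  have e5 : (a ^ 2 + b ^ 2) * d = b * (c ^ 2 + d ^ 2) := by
    linear_combination (-d) * e2 + b * e3 + 2 * p * e1
  have hU : 0 < a ^ 2 + b ^ 2 := by
    have : a ≠ 0 ∨ b ≠ 0 := by
      by_contra hcon
      push Not at hcon
      apply hf
      apply Complex.ext <;> linarith [hcon.1, hcon.2]
    rcases this with h | h
    · have := sq_nonneg b; have := pow_pos (abs_pos.mpr h) 2; rw [sq_abs] at this; linarith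
    · have := sq_nonneg a; have := pow_pos (abs_pos.mpr h) 2; rw [sq_abs] at this; linarith
  have hV : 0 < c ^ 2 + d ^ 2 := by
    have : c ≠ 0 ∨ d ≠ 0 := by
      by_contra hcon
      push Not at hcon
      apply hg
      apply Complex.ext <;> linarith [hcon.1, hcon.2]
    rcases this with h | h
    · have := sq_nonneg d; have := pow_pos (abs_pos.mpr h) 2; rw [sq_abs] at this; linarith
    · have := sq_nonneg c; have := pow_pos (abs_pos.mpr h) 2; rw [sq_abs] at this; linarith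
  have e6 : (a ^ 2 + b ^ 2) * (c ^ 2 + d ^ 2) * ((a ^ 2 + b ^ 2) - (c ^ 2 + d ^ 2)) = 0 := by
    have s1 : ((a ^ 2 + b ^ 2) * c) ^ 2 + ((a ^ 2 + b ^ 2) * d) ^ 2 =
        (a * (c ^ 2 + d ^ 2)) ^ 2 + (b * (c ^ 2 + d ^ 2)) ^ 2 := by rw [e4, e5]
    linear_combination s1
  have e7 : a ^ 2 + b ^ 2 = c ^ 2 + d ^ 2 := by
    rcases mul_eq_zero.mp e6 with h | h
    · rcases mul_eq_zero.mp h with h | h
      · linarith
      · linarith
    · linarith
  rw [← e7] at e4 e5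
  have e8 : c = a := by
    have : (a ^ 2 + b ^ 2) * c = (a ^ 2 + b ^ 2) * a := by linarith
    exact mul_left_cancel₀ hU.ne' this
  have e9 : d = b := by
    have : (a ^ 2 + b ^ 2) * d = (a ^ 2 + b ^ 2) * b := by linarith
    exact mul_left_cancel₀ hU.ne' this
  apply hfg
  apply Complex.ext
  · linarith
  · linarith

theorem light_partner (A E : Finset ℂ) (q : ℝ) (x e : ℂ) (hx : x ∈ A)
    (he : e ∈ E) (hreg : Reg A e x)
    (hheavy : ((heavy A q).filter (fun l => x ∈ l)).card ≤ 1)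
    (hrich : ¬ ∃ f : ℂ, (e, x, f) ∈ richUse A E q) :
    ∃ f ∈ A, f ≠ x ∧ dist e f = dist e x ∧ on E (bis x f) ≤ 2 := by
  have hxc : x ∈ cls A e x := cls_mem.mpr ⟨hx, rfl⟩
  have hcard : 2 ≤ ((cls A e x).erase x).card := by
    rw [Finset.card_erase_of_mem hxc]
    unfold Reg at hreg
    omega
  obtain ⟨f, hf, g, hg, hfg⟩ := Finset.one_lt_card.mp (by omega : 1 < ((cls A e x).erase x).card)
  rw [Finset.mem_erase, cls_mem] at hf hg
  obtain ⟨hfx, hfA, hfd⟩ := hf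
  obtain ⟨hgx, hgA, hgd⟩ := hg
  have key : ∀ k : ℂ, k ≠ x → k ∈ A → dist k e = dist x e → (on A (ln x k) : ℝ) < q →
      ∃ f ∈ A, f ≠ x ∧ dist e f = dist e x ∧ on E (bis x f) ≤ 2 := by
    intro k hkx hkA hkd hlt
    refine ⟨k, hkA, hkx, by rw [dist_comm e k, dist_comm e x, hkd], ?_⟩
    by_contra h3
    apply hrich
    refine ⟨k, ?_⟩
    simp only [richUse, Finset.mem_filter, Finset.mem_product]
    exact ⟨⟨he, hx, hkA⟩, hkx.symm, by rw [dist_comm e k, dist_comm e x, hkd], hlt, by omega⟩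
  by_cases h1 : (on A (ln x f) : ℝ) < q
  · exact key f hfx hfA hfd h1
  by_cases h2 : (on A (ln x g) : ℝ) < q
  · exact key g hgx hgA hgd h2
  exfalso
  rw [not_lt] at h1 h2
  have m1 : ln x f ∈ (heavy A q).filter (fun l => x ∈ l) := by
    simp only [heavy, Finset.mem_filter, Finset.mem_image, Finset.mem_offDiag]
    exact ⟨⟨⟨(x, f), ⟨hx, hfA, hfx.symm⟩, rfl⟩, h1⟩, by simp [ln]⟩
  have m2 : ln x g ∈ (heavy A q).filter (fun l => x ∈ l) := by
    simp only [heavy, Finset.mem_filter, Finset.mem_image, Finset.mem_offDiag]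
    exact ⟨⟨⟨(x, g), ⟨hx, hgA, hgx.symm⟩, rfl⟩, h2⟩, by simp [ln]⟩
  have heq : ln x f = ln x g := Finset.card_le_one.mp hheavy _ m1 _ m2
  have : g ∈ ln x f := by
    rw [heq]
    simp only [ln, Set.mem_ofPred_eq]
    ring
  exact not_collinear_equi e x f g hfx hgx hfg hfd hgd this

/-- exceptional centres for `x` -/
def Bx (A E : Finset ℂ) (q : ℝ) (x : ℂ) : Finset ℂ :=
  E.filter (fun e => ¬ Reg A e x ∨ ∃ f : ℂ, (e, x, f) ∈ richUse A E q)

theorem exc_sum (A E : Finset ℂ) (q : ℝ) :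
    ∑ x ∈ A, ((Bx A E q x).card : ℝ) ≤
      ∑ e ∈ E, ((A.filter (fun x => ¬ Reg A e x)).card : ℝ) + ((richUse A E q).card : ℝ) := by
  have h1 : ∀ x ∈ A, (Bx A E q x).card ≤ (E.filter (fun e => ¬ Reg A e x)).card +
      (E.filter (fun e => ∃ f : ℂ, (e, x, f) ∈ richUse A E q)).card := by
    intro x _
    unfold Bx
    rw [Finset.filter_or]
    exact Finset.card_union_le _ _
  have h2 : ∑ x ∈ A, (E.filter (fun e => ¬ Reg A e x)).card =
      ∑ e ∈ E, (A.filter (fun x => ¬ Reg A e x)).card := by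
    simp only [Finset.card_filter]
    rw [Finset.sum_comm]
  have h3 : ∑ x ∈ A, (E.filter (fun e => ∃ f : ℂ, (e, x, f) ∈ richUse A E q)).card ≤
      (richUse A E q).card := by
    have h' : ∀ t : ℂ × ℂ, ∃ c : ℂ, (∃ f : ℂ, (t.1, t.2, f) ∈ richUse A E q) →
        (t.1, t.2, c) ∈ richUse A E q := by
      intro t
      by_cases ht : ∃ f : ℂ, (t.1, t.2, f) ∈ richUse A E q
      · obtain ⟨c, hc⟩ := ht; exact ⟨c, fun _ => hc⟩
      · exact ⟨0, fun h => absurd h ht⟩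
    choose φ hφ using h'
    have e1 : ∑ x ∈ A, (E.filter (fun e => ∃ f : ℂ, (e, x, f) ∈ richUse A E q)).card =
        ((E ×ˢ A).filter (fun t => ∃ f : ℂ, (t.1, t.2, f) ∈ richUse A E q)).card := by
      simp only [Finset.card_filter]
      rw [Finset.sum_product_right]
    rw [e1]
    apply Finset.card_le_card_of_injOn (fun t => (t.1, t.2, φ t))
    · intro t ht
      rw [Finset.mem_coe, Finset.mem_filter] at ht
      exact hφ t ht.2
    · intro t _ t' _ htt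
      simp only [Prod.mk.injEq] at htt
      exact Prod.ext htt.1 htt.2.1
  have h4 : ∑ x ∈ A, (Bx A E q x).card ≤
      ∑ e ∈ E, (A.filter (fun x => ¬ Reg A e x)).card + (richUse A E q).card := by
    calc ∑ x ∈ A, (Bx A E q x).card ≤ ∑ x ∈ A, ((E.filter (fun e => ¬ Reg A e x)).card +
      (E.filter (fun e => ∃ f : ℂ, (e, x, f) ∈ richUse A E q)).card) := Finset.sum_le_sum h1
      _ = _ := Finset.sum_add_distrib
      _ ≤ _ := by rw [h2]; exact Nat.add_le_add_left h3 _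
  exact_mod_cast h4

theorem irr_full (A : Finset ℂ) (hA : NC A) (c : ℝ) (x : ℂ) (hx : x ∈ A)
    (hD : (D A x : ℝ) ≤ (1/3 + c) * A.card) :
    ((A.filter (fun a => ¬ Reg A x a)).card : ℝ) ≤ 6 * c * A.card + 3 := by
  have h1 := irregular_count A hA c x hx hD
  have h2 : (A.filter (fun a => ¬ Reg A x a)).card ≤
      ((A.erase x).filter (fun a => ¬ Reg A x a)).card + 1 := by
    have : A.filter (fun a => ¬ Reg A x a) ⊆
        insert x ((A.erase x).filter (fun a => ¬ Reg A x a)) := by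
      intro a ha
      rw [Finset.mem_filter] at ha
      rw [Finset.mem_insert, Finset.mem_filter, Finset.mem_erase]
      by_cases hax : a = x
      · left; exact hax
      · right; exact ⟨⟨hax, ha.1⟩, ha.2⟩
    exact (Finset.card_le_card this).trans (Finset.card_insert_le _ _)
  have h2' : ((A.filter (fun a => ¬ Reg A x a)).card : ℝ) ≤
      ((A.erase x).filter (fun a => ¬ Reg A x a)).card + 1 := by exact_mod_cast h2
  linarith

/-- Markov -/
theorem markov (S : Finset ℂ) (f : ℂ → ℝ) (hf : ∀ x, 0 ≤ f x) (t B : ℝ) (ht : 0 < t)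
    (h : ∑ x ∈ S, f x ≤ B) : ((S.filter (fun x => t < f x)).card : ℝ) ≤ B / t := by
  rw [le_div_iff₀ ht]
  calc ((S.filter (fun x => t < f x)).card : ℝ) * t ≤ ∑ x ∈ S.filter (fun x => t < f x), f x := by
        rw [← nsmul_eq_mul]
        apply Finset.card_nsmul_le_sum
        intro x hx
        exact (Finset.mem_filter.mp hx).2.le
    _ ≤ ∑ x ∈ S, f x := Finset.sum_le_sum_of_subset_of_nonneg (Finset.filter_subset _ _)
        (fun x _ _ => hf x)
    _ ≤ B := h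

theorem up_sum (A E : Finset ℂ) (σ : ℂ → ℝ) (τ h : ℝ) (hch : Chain A E σ τ h) (hh : 0 ≤ h) :
    ∑ x ∈ A, ((E.filter (fun e => Up (σ e) e x)).card : ℝ) ≤ h * A.card := by
  have h3 : ∑ b ∈ A, ((E.filter (fun e => Up (σ e) e b)).card : ℝ) =
      ∑ e ∈ E, ((A.filter (fun b => Up (σ e) e b)).card : ℝ) := by
    have : ∑ b ∈ A, (E.filter (fun e => Up (σ e) e b)).card =
        ∑ e ∈ E, (A.filter (fun b => Up (σ e) e b)).card := by
      simp only [Finset.card_filter]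
      rw [Finset.sum_comm]
    exact_mod_cast this
  rw [h3]
  calc ∑ e ∈ E, ((A.filter (fun b => Up (σ e) e b)).card : ℝ) ≤ ∑ e ∈ E, h :=
        Finset.sum_le_sum (fun e he => hch.low e he)
    _ = h * E.card := by rw [Finset.sum_const, nsmul_eq_mul]; ring
    _ ≤ h * A.card := by
        apply mul_le_mul_of_nonneg_left _ hh
        exact_mod_cast Finset.card_le_card hch.sub

theorem dense_part (A E : Finset ℂ) (hE : E ⊆ A) (η : ℝ) (hη : 0 < η) :
    ∃ E' ⊆ E, (∀ x ∈ E', ∀ r : ℝ, 0 ≤ r →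
      η * (M A x r : ℝ) ≤ ((E.filter (fun y => dist y x ≤ r)).card : ℝ)) ∧
      (E.card : ℝ) - 8 * η * A.card ≤ E'.card := by
  have h := maximal_ineq A E hE η hη
  set B := E.filter (fun x => ∃ r : ℝ, 0 ≤ r ∧
      ((E.filter (fun y => dist y x ≤ r)).card : ℝ) < η * M A x r) with hB
  refine ⟨E \ B, Finset.sdiff_subset, ?_, ?_⟩
  · intro x hx r hr
    rw [Finset.mem_sdiff, hB, Finset.mem_filter] at hx
    by_contra hcon
    exact hx.2 ⟨hx.1, r, hr, not_le.mp hcon⟩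
  · have h1 : E.card ≤ (E \ B).card + B.card := by
      have := Finset.card_le_card_sdiff_add_card (s := E) (t := B)
      omega
    have h1' : (E.card : ℝ) ≤ (E \ B).card + B.card := by exact_mod_cast h1
    linarith

theorem build_E3 (A E : Finset ℂ) (σ : ℂ → ℝ) (h c ε K β s₁ ε₃ : ℝ) (hA : NC A)
    (hch : Chain A E σ (1/20) h) (hβ : 0 < β) (hh : 0 ≤ h) (hs₁ : 0 < s₁) (hε₃ : 0 < ε₃)
    (hn : 0 < A.card) (hK : 2 ≤ K) (hK2 : 10 / K ^ 2 ≤ β / 100)
    (hD : ∀ x ∈ A, (D A x : ℝ) ≤ (1/3 + c) * A.card)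
    (hcard : β * A.card ≤ E.card)
    (hrich : ((richUse A E (K * Real.sqrt A.card)).card : ℝ) ≤ ε * (A.card : ℝ) ^ 2)
    (h3 : h ≤ s₁ * (β / 100))
    (h4 : 6 * c * A.card + 3 + ε * A.card ≤ ε₃ * (β / 100) * A.card) :
    ∃ E₁ E₃ : Finset ℂ, E₁ ⊆ E ∧ E₃ ⊆ E₁ ∧
      (∀ x ∈ E₁, ∀ r : ℝ, 0 ≤ r →
        (β / 100) * (M A x r : ℝ) ≤ ((E.filter (fun y => dist y x ≤ r)).card : ℝ)) ∧
      (∀ x ∈ E₃, ∀ r : ℝ, 0 ≤ r →
        (β / 100) * (M A x r : ℝ) ≤ ((E₁.filter (fun y => dist y x ≤ r)).card : ℝ)) ∧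
      (∀ x ∈ E₃, ((heavy A (K * Real.sqrt A.card)).filter (fun l => x ∈ l)).card ≤ 1) ∧
      (∀ x ∈ E₃, ((E.filter (fun e => Up (σ e) e x)).card : ℝ) ≤ s₁) ∧
      (∀ x ∈ E₃, ((Bx A E (K * Real.sqrt A.card) x).card : ℝ) ≤ ε₃ * A.card) ∧
      β / 2 * A.card ≤ E₃.card := by
  have hE : E ⊆ A := hch.sub
  have hn' : (0:ℝ) < A.card := by exact_mod_cast hn
  set q := K * Real.sqrt A.card with hq
  obtain ⟨E₁, hE₁, hd₁, hc₁⟩ := dense_part A E hE (β / 100) (by positivity)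
  obtain ⟨E₂, hE₂, hd₂, hc₂⟩ := dense_part A E₁ (hE₁.trans hE) (β / 100) (by positivity)
  set X1 := A.filter (fun c => 2 ≤ ((heavy A q).filter (fun l => c ∈ l)).card) with hX1
  set X2 := A.filter (fun x => s₁ < ((E.filter (fun e => Up (σ e) e x)).card : ℝ)) with hX2
  set X3 := A.filter (fun x => ε₃ * A.card < ((Bx A E q x).card : ℝ)) with hX3
  have b1 : (X1.card : ℝ) ≤ β / 100 * A.card := by
    have := heavy_double A K hK
    calc (X1.card : ℝ) ≤ 10 / K ^ 2 * A.card := this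
      _ ≤ _ := by apply mul_le_mul_of_nonneg_right hK2 hn'.le
  have b2 : (X2.card : ℝ) ≤ β / 100 * A.card := by
    have := markov A (fun x => ((E.filter (fun e => Up (σ e) e x)).card : ℝ))
      (fun x => by positivity) s₁ (h * A.card) hs₁ (up_sum A E σ _ h hch hh)
    calc (X2.card : ℝ) ≤ h * A.card / s₁ := this
      _ ≤ (s₁ * (β / 100)) * A.card / s₁ := by gcongr
      _ = β / 100 * A.card := by field_simp
  have b3 : (X3.card : ℝ) ≤ β / 100 * A.card := by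
    have hs : ∑ x ∈ A, ((Bx A E q x).card : ℝ) ≤ (ε₃ * (β / 100) * A.card) * A.card := by
      refine (exc_sum A E q).trans ?_
      have e1 : ∑ e ∈ E, ((A.filter (fun x => ¬ Reg A e x)).card : ℝ) ≤
          A.card * (6 * c * A.card + 3) := by
        have hnn : (0:ℝ) ≤ 6 * c * A.card + 3 := by
          obtain ⟨x, hx⟩ := Finset.card_pos.mp hn
          exact le_trans (by positivity) (irr_full A hA c x hx (hD x hx))
        calc ∑ e ∈ E, ((A.filter (fun x => ¬ Reg A e x)).card : ℝ)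
            ≤ ∑ e ∈ E, (6 * c * A.card + 3) :=
              Finset.sum_le_sum (fun e he => irr_full A hA c e (hE he) (hD e (hE he)))
          _ = E.card * (6 * c * A.card + 3) := by rw [Finset.sum_const, nsmul_eq_mul]
          _ ≤ A.card * (6 * c * A.card + 3) := by
              apply mul_le_mul_of_nonneg_right _ hnn
              exact_mod_cast Finset.card_le_card hE
      calc _ ≤ A.card * (6 * c * A.card + 3) + ε * (A.card : ℝ) ^ 2 := add_le_add e1 hrich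
        _ = (6 * c * A.card + 3 + ε * A.card) * A.card := by ring
        _ ≤ _ := mul_le_mul_of_nonneg_right h4 hn'.le
    have := markov A (fun x => ((Bx A E q x).card : ℝ)) (fun x => by positivity)
      (ε₃ * A.card) _ (by positivity) hs
    calc (X3.card : ℝ) ≤ (ε₃ * (β / 100) * A.card) * A.card / (ε₃ * A.card) := this
      _ = β / 100 * A.card := by field_simp
  set E₃ := E₂ \ (X1 ∪ (X2 ∪ X3)) with hE₃
  have hsub : E₃ ⊆ E₂ := Finset.sdiff_subset
  have hmem : ∀ x ∈ E₃, x ∈ A ∧ x ∉ X1 ∧ x ∉ X2 ∧ x ∉ X3 := by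
    intro x hx
    have h1 : x ∈ A := hE (hE₁ (hE₂ (hsub hx)))
    rw [hE₃, Finset.mem_sdiff, Finset.mem_union, Finset.mem_union] at hx
    push Not at hx
    exact ⟨h1, hx.2.1, hx.2.2.1, hx.2.2.2⟩
  refine ⟨E₁, E₃, hE₁, hsub.trans hE₂, hd₁, fun x hx => hd₂ x (hsub hx), ?_, ?_, ?_, ?_⟩
  · intro x hx
    obtain ⟨hxA, h1, _, _⟩ := hmem x hx
    by_contra hcon
    apply h1
    rw [hX1, Finset.mem_filter]
    exact ⟨hxA, by omega⟩
  · intro x hx
    obtain ⟨hxA, _, h1, _⟩ := hmem x hx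
    by_contra hcon
    apply h1
    rw [hX2, Finset.mem_filter]
    exact ⟨hxA, not_le.mp hcon⟩
  · intro x hx
    obtain ⟨hxA, _, _, h1⟩ := hmem x hx
    by_contra hcon
    apply h1
    rw [hX3, Finset.mem_filter]
    exact ⟨hxA, not_le.mp hcon⟩
  · have c1 : E₂.card ≤ E₃.card + (X1 ∪ (X2 ∪ X3)).card := by
      have := Finset.card_le_card_sdiff_add_card (s := E₂) (t := (X1 ∪ (X2 ∪ X3)))
      omega
    have c2 : (X1 ∪ (X2 ∪ X3)).card ≤ X1.card + (X2.card + X3.card) :=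
      (Finset.card_union_le _ _).trans (Nat.add_le_add_left (Finset.card_union_le _ _) _)
    have c3 : (E₂.card : ℝ) ≤ E₃.card + (X1.card + (X2.card + X3.card)) := by
      exact_mod_cast c1.trans (Nat.add_le_add_left c2 _)
    have hp : 0 < β * A.card := by positivity
    linarith

/-- growth at the points of `E₁` seen from `E₃` -/
theorem growth_from (A E E₁ : Finset ℂ) (x y : ℂ) (s R β ε₃ μ q : ℝ) (hE : E ⊆ A)
    (hβ : 0 < β) (hβ1 : β ≤ 1) (hR : 1 ≤ R) (hμ : 0 < μ) (hs : 0 < s) (h1 : s / 2 < dist x y)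
    (h2 : dist x y ≤ s) (hx : x ∈ A) (hy : y ∈ E₁)
    (hdens : ∀ x ∈ E₁, ∀ r : ℝ, 0 ≤ r →
        (β / 100) * (M A x r : ℝ) ≤ ((E.filter (fun y => dist y x ≤ r)).card : ℝ))
    (hheavy : ((heavy A q).filter (fun l => x ∈ l)).card ≤ 1)
    (hB : ((Bx A E q x).card : ℝ) ≤ ε₃ * A.card)
    (hε₃ : ε₃ * A.card ≤ (β / 100) ^ 2 / 200000 * μ)
    (hMs : R * μ ≤ (M A x s : ℝ)) (hM : (β / 100) / 20000 * (M A x s : ℝ) ≤ (M A y (s/16) : ℝ)) :
    (1 + 2 / 5 * (β / 100)) * (M A y (s/16) : ℝ) ≤ (M A y (9 * s / 8) : ℝ) := by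
  apply growth_lemma A E (Bx A E q x) hE x y s (β / 100) hs h1 h2 (by positivity) (by linarith)
    (hdens y hy _ (by positivity))
  · have e1 : (β / 100) / 20000 * μ ≤ (M A y (s/16) : ℝ) := by
      refine le_trans ?_ hM
      apply mul_le_mul_of_nonneg_left _ (by positivity)
      nlinarith
    calc ((Bx A E q x).card : ℝ) ≤ (β / 100) ^ 2 / 200000 * μ := hB.trans hε₃
      _ = (β / 100) / 10 * ((β / 100) / 20000 * μ) := by ring
      _ ≤ _ := mul_le_mul_of_nonneg_left e1 (by positivity)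
  · intro e he heB
    have hnot : Reg A e x ∧ ¬ ∃ f : ℂ, (e, x, f) ∈ richUse A E q := by
      by_contra hcon
      apply heB
      rw [Bx, Finset.mem_filter]
      refine ⟨he, ?_⟩
      by_cases h : Reg A e x
      · right
        by_contra h'
        exact hcon ⟨h, h'⟩
      · left; exact h
    exact light_partner A E q x e hx he hnot.1 hheavy hnot.2

theorem core (A E : Finset ℂ) (σ : ℂ → ℝ) (β R K c d ε C K₂ : ℝ) (J : ℕ)
    (hC : ∀ (η g R μ : ℝ) (J : ℕ) (A E₁ E₃ : Finset ℂ),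
    0 < η → η ≤ 1 → 0 < g → g ≤ 1 → (100 / η) ^ 10 ≤ R → 3 ≤ μ → μ * R ^ J = A.card →
    E₁ ⊆ A → E₃ ⊆ A → NC A →
    (∀ x ∈ E₃, ∀ r : ℝ, 0 ≤ r → η * (M A x r : ℝ) ≤ ((E₁.filter (fun y => dist y x ≤ r)).card : ℝ)) →
    (∀ x ∈ E₃, ∀ y ∈ E₁, ∀ s : ℝ, 0 < s → s / 2 < dist x y → dist x y ≤ s →
      R * μ ≤ (M A x s : ℝ) → η / 20000 * (M A x s : ℝ) ≤ (M A y (s/16) : ℝ) →
      (1 + g) * (M A y (s/16) : ℝ) ≤ (M A y (9 * s / 8) : ℝ)) →
    ∑ x ∈ E₃, (((range J).filter (fun j => Lac A R x (μ * R ^ j))).card : ℝ) ≤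
      C * (Real.log R / (η * g * R)) * A.card * J)
    (hK₂ : ∀ (A E E₀ : Finset ℂ) (σ : ℂ → ℝ) (h s₁ k₁ μ K : ℝ),
    NC A → Chain A E σ (1/20) h → E₀ ⊆ E → 0 ≤ h → 0 < s₁ → h + s₁ < k₁ → k₁ ≤ μ →
    h * A.card ≤ s₁ * μ → 2 ≤ K →
    (∀ x ∈ E₀, ((E.filter (fun e => Up (σ e) e x)).card : ℝ) ≤ s₁) →
    ((richUse A E (K * Real.sqrt A.card)).card : ℝ) ≤ μ * A.card →
    ∑ t ∈ prs A E₀ μ, (1:ℝ) / (M A t.1 (2 * dist t.2 t.1) : ℝ) ≤ K₂ * A.card)
    (hA : NC A) (hch : Chain A E σ (1/20) (d * A.card)) (hβ : 0 < β) (hβ1 : β ≤ 1)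
    (hR : (100 / (β / 100)) ^ 10 ≤ R)
    (hRC : C * (Real.log R / ((β / 100) * (2 / 5 * (β / 100)) * R)) ≤ β / 16)
    (hJ2 : 2 ≤ J) (hJ : 32 * R * K₂ < 3 * β * J)
    (hn : 0 < A.card) (hK : 2 ≤ K) (hK2 : 10 / K ^ 2 ≤ β / 100)
    (hc : 0 ≤ c) (hD : ∀ x ∈ A, (D A x : ℝ) ≤ (1/3 + c) * A.card)
    (hcard : β * A.card ≤ E.card)
    (hrich : ((richUse A E (K * Real.sqrt A.card)).card : ℝ) ≤ ε * (A.card : ℝ) ^ 2)
    (hε : ε ≤ 1 / R ^ J)
    (hd : 0 < d) (hd1 : d ≤ 1 / R ^ J * (1 / R ^ J) / 4) (hd2 : d ≤ 1 / R ^ J * β / 400)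
    (h4 : 6 * c * A.card + 3 + ε * A.card ≤
      ((β / 100) ^ 2 * (1 / R ^ J) / 200000) * (β / 100) * A.card)
    (h5 : 6 * c * A.card + 5 ≤ A.card * (1 / R ^ J)) : False := by
  have hn' : (0:ℝ) < A.card := by exact_mod_cast hn
  have hR1 : (4:ℝ) ≤ R := by
    refine le_trans ?_ hR
    have h100 : (100:ℝ) ≤ 100 / (β / 100) := by
      rw [le_div_iff₀ (by positivity)]
      linarith
    calc (4:ℝ) ≤ 100 ^ 10 := by norm_num
      _ ≤ _ := by gcongr
  have hRpos : 0 < R := by linarith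
  have hE : E ⊆ A := hch.sub
  obtain ⟨P, hP⟩ : ∃ P : ℝ, P = 1 / R ^ J := ⟨_, rfl⟩
  rw [← hP] at hε hd1 hd2 h4 h5
  have hP0 : 0 < P := by rw [hP]; positivity
  have hP1 : P ≤ 1 := by
    rw [hP, div_le_one (by positivity)]
    exact one_le_pow₀ (by linarith)
  obtain ⟨μ, hμdef⟩ : ∃ μ : ℝ, μ = A.card * P := ⟨_, rfl⟩
  rw [← hμdef] at h5
  have hμR : μ * R ^ J = A.card := by
    rw [hμdef, hP]; field_simp
  have hcn : 0 ≤ 6 * c * A.card := by positivity
  have hμ5 : 5 ≤ μ := by linarith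
  have hμ : 0 < μ := by linarith
  set q := K * Real.sqrt A.card with hq
  set ε₃ := (β / 100) ^ 2 * P / 200000 with hε₃
  have hε₃0 : 0 < ε₃ := by positivity
  obtain ⟨E₁, E₃, hE₁, hE₃, hd₁, hd₃, hh₃, ht₃, hB₃, hcard₃⟩ :=
    build_E3 A E σ (d * A.card) c ε K β (μ / 4) ε₃ hA hch hβ (by positivity) (by positivity)
      hε₃0 hn hK hK2 hD hcard hrich (by
        rw [hμdef]
        have : d * A.card ≤ (P * β / 400) * A.card := mul_le_mul_of_nonneg_right hd2 hn'.le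
        linarith) h4
  -- lacunary pairs
  have hlac := hC (β / 100) (2 / 5 * (β / 100)) R μ J A E₁ E₃ (by positivity) (by linarith)
    (by positivity) (by linarith) hR (by linarith) hμR (hE₁.trans hE) (hE₃.trans (hE₁.trans hE)) hA
    hd₃ (by
      intro x hx y hy s hs h1 h2 hMs hM
      exact growth_from A E E₁ x y s R β ε₃ μ q hE hβ hβ1 (by linarith) hμ hs h1 h2
        (hE (hE₁ (hE₃ hx))) hy hd₁ (hh₃ x hx) (hB₃ x hx) (by rw [hε₃, hμdef]; linarith) hMs hM)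
  -- upper bound
  have hup := hK₂ A E E₃ σ (d * A.card) (μ / 4) (μ / 2) μ K hA hch (hE₃.trans hE₁)
    (by positivity) (by positivity) (by
      have e1 : d * A.card ≤ (P * β / 400) * A.card := mul_le_mul_of_nonneg_right hd2 hn'.le
      have e2 : (P * β / 400) * A.card = μ * (β / 400) := by rw [hμdef]; ring
      have e3 : μ * (β / 400) ≤ μ * (1 / 400) := mul_le_mul_of_nonneg_left (by linarith) hμ.le
      linarith) (by linarith) (by
      have e1 : d * A.card ≤ (P * P / 4) * A.card := mul_le_mul_of_nonneg_right hd1 hn'.le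
      calc d * A.card * A.card ≤ (P * P / 4) * A.card * A.card :=
            mul_le_mul_of_nonneg_right e1 hn'.le
        _ = μ / 4 * μ := by rw [hμdef]; ring) hK ht₃ (by
      calc ((richUse A E q).card : ℝ) ≤ ε * (A.card : ℝ) ^ 2 := hrich
        _ ≤ P * (A.card : ℝ) ^ 2 := mul_le_mul_of_nonneg_right hε (by positivity)
        _ = μ * A.card := by rw [hμdef]; ring)
  -- lower bound
  have hlow : ∀ x ∈ E₃, (((range J).filter (fun j => 1 ≤ j ∧ ¬ Lac A R x (μ * R ^ j))).card : ℝ) /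
      (2 * R) ≤ ∑ a ∈ A.filter (fun a => a ≠ x ∧ Reg A x a ∧ μ ≤ (M A x (dist a x) : ℝ)),
        (1:ℝ) / (M A x (2 * dist a x) : ℝ) := by
    intro x hx
    have hxA : x ∈ A := hE (hE₁ (hE₃ hx))
    exact nonlac_lower A hA x hxA R μ (6 * c * A.card + 2) J hR1 hμ (by linarith) hμR.le
      (irregular_count A hA c x hxA (hD x hxA))
  have hprs : ∑ t ∈ prs A E₃ μ, (1:ℝ) / (M A t.1 (2 * dist t.2 t.1) : ℝ) =
      ∑ x ∈ E₃, ∑ a ∈ A.filter (fun a => a ≠ x ∧ Reg A x a ∧ μ ≤ (M A x (dist a x) : ℝ)),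
        (1:ℝ) / (M A x (2 * dist a x) : ℝ) := by
    unfold prs
    rw [Finset.sum_filter, Finset.sum_product]
    apply Finset.sum_congr rfl
    intro x _
    rw [Finset.sum_filter]
  have hcount : ∀ x ∈ E₃, (J : ℝ) - 1 ≤
      (((range J).filter (fun j => 1 ≤ j ∧ ¬ Lac A R x (μ * R ^ j))).card : ℝ) +
      (((range J).filter (fun j => Lac A R x (μ * R ^ j))).card : ℝ) := by
    intro x _
    have h1 : (range J).card ≤ ((range J).filter (fun j => 1 ≤ j ∧ ¬ Lac A R x (μ * R ^ j))).card +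
        ((range J).filter (fun j => Lac A R x (μ * R ^ j))).card + 1 := by
      have hsub : range J ⊆ insert 0 (((range J).filter (fun j => 1 ≤ j ∧ ¬ Lac A R x (μ * R ^ j))) ∪
          ((range J).filter (fun j => Lac A R x (μ * R ^ j)))) := by
        intro j hj
        rw [Finset.mem_insert, Finset.mem_union, Finset.mem_filter, Finset.mem_filter]
        by_cases h0 : j = 0
        · left; exact h0
        · right
          by_cases hl : Lac A R x (μ * R ^ j)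
          · right; exact ⟨hj, hl⟩
          · left; exact ⟨hj, by omega, hl⟩
      refine (Finset.card_le_card hsub).trans ((Finset.card_insert_le _ _).trans ?_)
      apply Nat.add_le_add_right
      exact Finset.card_union_le _ _
    rw [Finset.card_range] at h1
    have h1' : (J : ℝ) ≤ (((range J).filter (fun j => 1 ≤ j ∧ ¬ Lac A R x (μ * R ^ j))).card : ℝ) +
        (((range J).filter (fun j => Lac A R x (μ * R ^ j))).card : ℝ) + 1 := by exact_mod_cast h1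
    linarith
  have hJ2' : (2:ℝ) ≤ J := by exact_mod_cast hJ2
  -- assemble
  have s1 : (E₃.card : ℝ) * (J - 1) ≤
      ∑ x ∈ E₃, (((range J).filter (fun j => 1 ≤ j ∧ ¬ Lac A R x (μ * R ^ j))).card : ℝ) +
      ∑ x ∈ E₃, (((range J).filter (fun j => Lac A R x (μ * R ^ j))).card : ℝ) := by
    rw [← Finset.sum_add_distrib, ← nsmul_eq_mul]
    exact Finset.card_nsmul_le_sum _ _ _ hcount
  have s2 : ∑ x ∈ E₃, (((range J).filter (fun j => Lac A R x (μ * R ^ j))).card : ℝ) ≤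
      β / 16 * A.card * J := by
    refine hlac.trans ?_
    apply mul_le_mul_of_nonneg_right _ (by positivity)
    exact mul_le_mul_of_nonneg_right hRC hn'.le
  have s3 : (∑ x ∈ E₃, (((range J).filter (fun j => 1 ≤ j ∧ ¬ Lac A R x (μ * R ^ j))).card : ℝ)) /
      (2 * R) ≤ K₂ * A.card := by
    rw [Finset.sum_div]
    refine (Finset.sum_le_sum hlow).trans ?_
    rw [← hprs]
    exact hup
  rw [div_le_iff₀ (by positivity)] at s3
  have s4 : β / 2 * A.card * (J - 1) ≤ (E₃.card : ℝ) * (J - 1) :=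
    mul_le_mul_of_nonneg_right hcard₃ (by linarith)
  have s5 : β / 2 * A.card * (J / 2) ≤ β / 2 * A.card * (J - 1) :=
    mul_le_mul_of_nonneg_left (by linarith) (by positivity)
  have s6 : 32 * R * K₂ * A.card < 3 * β * J * A.card := mul_lt_mul_of_pos_right hJ hn'
  nlinarith

theorem exists_R (C β : ℝ) (hβ : 0 < β) : ∃ R : ℝ, (100 / (β / 100)) ^ 10 ≤ R ∧
    C * (Real.log R / ((β / 100) * (2 / 5 * (β / 100)) * R)) ≤ β / 16 := by
  have h1 : Filter.Tendsto (fun R : ℝ => Real.log R / R) Filter.atTop (nhds 0) := by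
    have := Real.isLittleO_log_id_atTop.tendsto_div_nhds_zero
    simpa using this
  have h2 : Filter.Tendsto (fun R : ℝ => C / ((β / 100) * (2 / 5 * (β / 100))) * (Real.log R / R))
      Filter.atTop (nhds 0) := by
    have := h1.const_mul (C / ((β / 100) * (2 / 5 * (β / 100))))
    simpa using this
  have h3 : ∀ᶠ R : ℝ in Filter.atTop,
      C / ((β / 100) * (2 / 5 * (β / 100))) * (Real.log R / R) ≤ β / 16 :=
    h2.eventually_le_const (by positivity)
  obtain ⟨R, hR1, hR2⟩ := (h3.and (Filter.eventually_ge_atTop ((100 / (β / 100)) ^ 10))).exists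
  refine ⟨R, hR2, ?_⟩
  calc C * (Real.log R / ((β / 100) * (2 / 5 * (β / 100)) * R)) =
      C / ((β / 100) * (2 / 5 * (β / 100))) * (Real.log R / R) := by
        generalize (β / 100) * (2 / 5 * (β / 100)) = D
        rw [div_mul_div_comm, mul_div_assoc]
    _ ≤ _ := hR1

theorem Chain.mono {A E : Finset ℂ} {σ : ℂ → ℝ} {τ h h' : ℝ} (H : Chain A E σ τ h) (hh : h ≤ h') :
    Chain A E σ τ h' :=
  ⟨H.sub, H.slope, fun x hx => (H.low x hx).trans hh⟩

theorem main_chain_aux (β : ℝ) (hβ : 0 < β) (hβ1 : β ≤ 1) : ∃ d : ℝ, 0 < d ∧ ∃ c : ℝ, 0 < c ∧ ∃ N : ℕ,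
    ∀ (A E : Finset ℂ) (σ : ℂ → ℝ), NC A → N ≤ A.card →
      (∀ x ∈ A, (D A x : ℝ) ≤ (1/3 + c) * A.card) → Chain A E σ (1/20) (d * A.card) →
      (E.card : ℝ) < β * A.card := by
  obtain ⟨C, hC0, hC⟩ := lac_lemma
  obtain ⟨K₂, hK₂0, hK₂⟩ := upper_bound'
  obtain ⟨R, hR, hRC⟩ := exists_R C β hβ
  have hRpos : 0 < R := lt_of_lt_of_le (by positivity) hR
  obtain ⟨J, hJ⟩ := exists_nat_gt (max 2 (32 * R * K₂ / (3 * β)))
  have hJ2 : 2 ≤ J := by
    have : (2:ℝ) < J := lt_of_le_of_lt (le_max_left _ _) hJ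
    exact_mod_cast this.le
  have hJ3 : 32 * R * K₂ < 3 * β * J := by
    have : 32 * R * K₂ / (3 * β) < J := lt_of_le_of_lt (le_max_right _ _) hJ
    rw [div_lt_iff₀ (by positivity)] at this
    linarith
  obtain ⟨P, hP⟩ : ∃ P : ℝ, P = 1 / R ^ J := ⟨_, rfl⟩
  have hP0 : 0 < P := by rw [hP]; positivity
  obtain ⟨K, hKdef⟩ : ∃ K : ℝ, K = 1000 / β + 2 := ⟨_, rfl⟩
  have hK : 2 ≤ K := by rw [hKdef]; linarith [div_nonneg (by norm_num : (0:ℝ) ≤ 1000) hβ.le]
  have hK2 : 10 / K ^ 2 ≤ β / 100 := by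
    rw [div_le_iff₀ (by positivity)]
    have h1 : 1000 / β ≤ K := by rw [hKdef]; linarith
    have h2 : 1000 ≤ K * β := by rwa [div_le_iff₀ hβ] at h1
    have h3 : 1000 * 1 ≤ K * β * K := by
      apply mul_le_mul h2 (by linarith) (by norm_num) (by linarith)
    nlinarith
  -- error budget
  obtain ⟨T, hT⟩ : ∃ T : ℝ, T = ((β / 100) ^ 2 * P / 200000) * (β / 100) := ⟨_, rfl⟩
  have hT0 : 0 < T := by rw [hT]; positivity
  obtain ⟨ε, hε⟩ : ∃ ε : ℝ, ε = min P (T / 3) := ⟨_, rfl⟩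
  have hε0 : 0 < ε := by rw [hε]; exact lt_min hP0 (by positivity)
  obtain ⟨δ, hδ0, N₁, hlight⟩ := light_usage K ε (by linarith) hε0
  obtain ⟨d, hd⟩ : ∃ d : ℝ, d = min δ (min (P * P / 4) (P * β / 400)) := ⟨_, rfl⟩
  have hd0 : 0 < d := by
    rw [hd]; exact lt_min hδ0 (lt_min (by positivity) (by positivity))
  obtain ⟨c, hc⟩ : ∃ c : ℝ, c = min (T / 18) (P / 12) := ⟨_, rfl⟩
  have hc0 : 0 < c := by rw [hc]; exact lt_min (by positivity) (by positivity)
  obtain ⟨N₂, hN₂⟩ := exists_nat_gt (max (9 / T) (10 / P))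
  refine ⟨d, hd0, c, hc0, N₁ + N₂ + 1, ?_⟩
  intro A E σ hA hN hD hch
  by_contra hcon
  rw [not_lt] at hcon
  have hn : 0 < A.card := by omega
  have hn' : (0:ℝ) < A.card := by exact_mod_cast hn
  have hN₂' : (N₂ : ℝ) ≤ A.card := by exact_mod_cast (by omega : N₂ ≤ A.card)
  have hn1 : 9 ≤ T * A.card := by
    have : 9 / T ≤ A.card := (le_max_left _ _).trans (hN₂.le.trans hN₂')
    rw [div_le_iff₀ hT0] at this
    linarith
  have hn2 : 10 ≤ P * A.card := by
    have : 10 / P ≤ A.card := (le_max_right _ _).trans (hN₂.le.trans hN₂')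
    rw [div_le_iff₀ hP0] at this
    linarith
  have hdδ : d ≤ δ := by rw [hd]; exact min_le_left _ _
  have hd1 : d ≤ P * P / 4 := by rw [hd]; exact (min_le_right _ _).trans (min_le_left _ _)
  have hd2 : d ≤ P * β / 400 := by rw [hd]; exact (min_le_right _ _).trans (min_le_right _ _)
  have hcT : c ≤ T / 18 := by rw [hc]; exact min_le_left _ _
  have hcP : c ≤ P / 12 := by rw [hc]; exact min_le_right _ _
  have hεP : ε ≤ P := by rw [hε]; exact min_le_left _ _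
  have hεT : ε ≤ T / 3 := by rw [hε]; exact min_le_right _ _
  have hrich := hlight A E σ hA (by omega)
    (Chain.mono hch (mul_le_mul_of_nonneg_right hdδ hn'.le))
  refine core A E σ β R K c d ε C K₂ J hC hK₂ hA hch hβ hβ1 hR hRC hJ2 hJ3 hn hK hK2 hc0.le hD hcon
    hrich (by rw [← hP]; exact hεP) hd0 (by rw [← hP]; exact hd1) (by rw [← hP]; exact hd2) ?_ ?_
  · rw [← hP, ← hT]
    have e1 : 6 * c * A.card ≤ 6 * (T / 18) * A.card := by
      apply mul_le_mul_of_nonneg_right _ hn'.le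
      linarith
    have e2 : ε * A.card ≤ T / 3 * A.card := mul_le_mul_of_nonneg_right hεT hn'.le
    linarith
  · rw [← hP]
    have e1 : 6 * c * A.card ≤ 6 * (P / 12) * A.card := by
      apply mul_le_mul_of_nonneg_right _ hn'.le
      linarith
    linarith

theorem main_chain' (β : ℝ) (hβ : 0 < β) : ∃ d : ℝ, 0 < d ∧ ∃ c : ℝ, 0 < c ∧ ∃ N : ℕ,
    ∀ (A E : Finset ℂ) (σ : ℂ → ℝ), NC A → N ≤ A.card →
      (∀ x ∈ A, (D A x : ℝ) ≤ (1/3 + c) * A.card) → Chain A E σ (1/20) (d * A.card) →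
      (E.card : ℝ) < β * A.card := by
  obtain ⟨d, hd, c, hc, N, h⟩ := main_chain_aux (min β 1) (lt_min hβ one_pos) (min_le_right _ _)
  refine ⟨d, hd, c, hc, N, ?_⟩
  intro A E σ hA hN hD hch
  refine lt_of_lt_of_le (h A E σ hA hN hD hch) ?_
  exact mul_le_mul_of_nonneg_right (min_le_left _ _) (by positivity)

end

end Pool.Agent.DD.H60
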