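import Pool.Agent.Lib_helper60.DD.Blocks

set_option autoImplicit false

namespace Pool.Agent.DD.H60

open Finset Classical

noncomputable section

theorem cls_mem {A : Finset ℂ} {x a b : ℂ} : b ∈ cls A x a ↔ b ∈ A ∧ dist b x = dist a x := by
  simp [cls]

/-- charging: every pair of `P` is charged to a pair of `Q` with the same centre and radius -/
theorem charge (A : Finset ℂ) (hA : NC A) (P Q : Finset (ℂ × ℂ)) (g : ℂ → ℝ → ℝ)
    (hg : ∀ x r, 0 ≤ g x r) (hPA : ∀ t ∈ P, t.2 ∈ A)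
    (h : ∀ t ∈ P, ∃ b ∈ cls A t.1 t.2, (t.1, b) ∈ Q) :
    ∑ t ∈ P, g t.1 (dist t.2 t.1) ≤ 3 * ∑ t ∈ Q, g t.1 (dist t.2 t.1) := by
  have h' : ∀ t : ℂ × ℂ, ∃ b : ℂ, t ∈ P → b ∈ cls A t.1 t.2 ∧ (t.1, b) ∈ Q := by
    intro t
    by_cases ht : t ∈ P
    · obtain ⟨b, hb, hQ⟩ := h t ht
      exact ⟨b, fun _ => ⟨hb, hQ⟩⟩
    · exact ⟨0, fun h => absurd h ht⟩
  choose φ hφ using h'
  have hmaps : ∀ t ∈ P, (t.1, φ t) ∈ Q := fun t ht => (hφ t ht).2
  rw [← Finset.sum_fiberwise_of_maps_to (g := fun t => (t.1, φ t)) hmaps]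
  rw [Finset.mul_sum]
  apply Finset.sum_le_sum
  intro s hs
  have hcard : (P.filter (fun t => (t.1, φ t) = s)).card ≤ 3 := by
    calc (P.filter (fun t => (t.1, φ t) = s)).card
        ≤ (A.filter (fun p => dist p s.1 = dist s.2 s.1)).card := by
          apply Finset.card_le_card_of_injOn (fun t => t.2)
          · intro t ht
            simp only [Finset.coe_filter, Set.mem_ofPred_eq] at ht ⊢
            obtain ⟨htP, hts⟩ := ht
            have h1 := (hφ t htP).1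
            rw [cls_mem] at h1
            have e1 : t.1 = s.1 := by rw [← hts]
            have e2 : φ t = s.2 := by rw [← hts]
            refine ⟨hPA t htP, ?_⟩
            rw [← e1, ← e2]
            exact h1.2.symm
          · intro t ht t' ht' htt
            simp only [Finset.coe_filter, Set.mem_ofPred_eq] at ht ht'
            have e1 : t.1 = s.1 := by rw [← ht.2]
            have e2 : t'.1 = s.1 := by rw [← ht'.2]
            exact Prod.ext (e1.trans e2.symm) htt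
      _ ≤ 3 := hA _ _
  calc ∑ t ∈ P.filter (fun t => (t.1, φ t) = s), g t.1 (dist t.2 t.1)
      = ∑ t ∈ P.filter (fun t => (t.1, φ t) = s), g s.1 (dist s.2 s.1) := by
        apply Finset.sum_congr rfl
        intro t ht
        simp only [Finset.mem_filter] at ht
        obtain ⟨htP, hts⟩ := ht
        have h1 := (hφ t htP).1
        rw [cls_mem] at h1
        have e1 : t.1 = s.1 := by rw [← hts]
        have e2 : φ t = s.2 := by rw [← hts]
        rw [← h1.2, e1, e2]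
    _ = (P.filter (fun t => (t.1, φ t) = s)).card * g s.1 (dist s.2 s.1) := by
        rw [Finset.sum_const, nsmul_eq_mul]
    _ ≤ 3 * g s.1 (dist s.2 s.1) := by
        apply mul_le_mul_of_nonneg_right _ (hg _ _)
        exact_mod_cast hcard

theorem M_mono (A : Finset ℂ) (x : ℂ) {r s : ℝ} (h : r ≤ s) : M A x r ≤ M A x s := by
  apply Finset.card_le_card
  intro a ha
  simp only [Finset.mem_filter] at ha ⊢
  exact ⟨ha.1, ha.2.trans h⟩

theorem M_pos (A : Finset ℂ) (x : ℂ) (hx : x ∈ A) {r : ℝ} (h : 0 ≤ r) : 0 < M A x r := by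
  apply Finset.card_pos.mpr
  exact ⟨x, by simp [hx, h]⟩

/-- crude bound: a set of pairs with all weights `≤ 1/μ` -/
theorem crude (A : Finset ℂ) (Q : Finset (ℂ × ℂ)) (μ : ℝ) (hμ : 0 < μ)
    (hQ : ∀ t ∈ Q, μ ≤ (M A t.1 (dist t.2 t.1) : ℝ)) :
    ∑ t ∈ Q, (1:ℝ) / (M A t.1 (2 * dist t.2 t.1) : ℝ) ≤ Q.card / μ := by
  calc ∑ t ∈ Q, (1:ℝ) / (M A t.1 (2 * dist t.2 t.1) : ℝ) ≤ ∑ t ∈ Q, 1 / μ := by
        apply Finset.sum_le_sum
        intro t ht
        apply one_div_le_one_div_of_le hμ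
        refine (hQ t ht).trans ?_
        exact_mod_cast M_mono A t.1 (by linarith [dist_nonneg (x := t.2) (y := t.1)])
    _ = Q.card / μ := by
        rw [Finset.sum_const, nsmul_eq_mul]; ring

theorem wt_le (A : Finset ℂ) (x : ℂ) (hx : x ∈ A) (r : ℝ) (hr : 0 ≤ r) :
    (1:ℝ) / (M A x (2 * r) : ℝ) ≤ 1 / (M A x r : ℝ) := by
  apply one_div_le_one_div_of_le
  · exact_mod_cast M_pos A x hx hr
  · exact_mod_cast M_mono A x (by linarith)


theorem dir_unique (p r b w w' : ℂ) (t t' : ℝ) (hpr : p ≠ r) (ht : 0 < t) (ht' : 0 < t')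
    (hw : ‖w‖ = 1) (hw' : ‖w'‖ = 1) (hi : 0 < w.im) (hi' : 0 < w'.im)
    (hb : b ∈ ln p r) (h1 : b + (2 * t : ℝ) * w ∈ ln p r) (h2 : b + (2 * t' : ℝ) * w' ∈ ln p r) :
    w = w' := by
  simp only [ln, Set.mem_ofPred_eq, Complex.sub_re, Complex.sub_im, Complex.add_re, Complex.add_im,
    Complex.re_ofReal_mul, Complex.im_ofReal_mul] at hb h1 h2
  have e1 : (r.re - p.re) * w.im = (r.im - p.im) * w.re := by
    have : (2 * t) * ((r.re - p.re) * w.im) = (2 * t) * ((r.im - p.im) * w.re) := by linarith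
    exact mul_left_cancel₀ (by positivity) this
  have e2 : (r.re - p.re) * w'.im = (r.im - p.im) * w'.re := by
    have : (2 * t') * ((r.re - p.re) * w'.im) = (2 * t') * ((r.im - p.im) * w'.re) := by linarith
    exact mul_left_cancel₀ (by positivity) this
  have hne : r.im - p.im ≠ 0 ∨ r.re - p.re ≠ 0 := by
    by_contra hcon
    push Not at hcon
    apply hpr
    apply Complex.ext <;> linarith [hcon.1, hcon.2]
  have hpar : w.re * w'.im = w.im * w'.re := by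
    rcases hne with h | h
    · apply mul_left_cancel₀ h
      linear_combination w.im * e2 - w'.im * e1
    · apply mul_left_cancel₀ h
      linear_combination w.re * e2 - w'.re * e1
  have n1 : w.re ^ 2 + w.im ^ 2 = 1 := by
    have := Complex.sq_norm w
    rw [hw, Complex.normSq_apply] at this
    nlinarith
  have n2 : w'.re ^ 2 + w'.im ^ 2 = 1 := by
    have := Complex.sq_norm w'
    rw [hw', Complex.normSq_apply] at this
    nlinarith
  have him : w.im = w'.im := by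
    have : w.im ^ 2 = w'.im ^ 2 := by
      have h3 : (w.re * w'.im) ^ 2 = (w.im * w'.re) ^ 2 := by rw [hpar]
      have h4 : w.re ^ 2 = 1 - w.im ^ 2 := by linarith
      have h5 : w'.re ^ 2 = 1 - w'.im ^ 2 := by linarith
      have h6 : w.re ^ 2 * w'.im ^ 2 = w.im ^ 2 * w'.re ^ 2 := by nlinarith [h3]
      rw [h4, h5] at h6
      nlinarith
    nlinarith [sq_nonneg (w.im - w'.im)]
  apply Complex.ext _ him
  rw [him] at hpar
  have : w'.im * w.re = w'.im * w'.re := by linarith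
  exact mul_left_cancel₀ hi'.ne' this

/-- predicates used in the classification -/
def p1 (E : Finset ℂ) (σ : ℂ → ℝ) (s₁ : ℝ) (t : ℂ × ℂ) : Prop :=
  s₁ < ((E.filter (fun e => Up (σ e) e t.2)).card : ℝ)
def p2 (σ : ℂ → ℝ) (t : ℂ × ℂ) : Prop := Up (σ t.1) t.1 t.2
def p3 (E : Finset ℂ) (k₁ : ℝ) (t : ℂ × ℂ) : Prop :=
  ((E.filter (fun e => dist e t.2 ≤ (1/50) * dist t.2 t.1)).card : ℝ) < k₁
def p4 (A E : Finset ℂ) (q : ℝ) (t : ℂ × ℂ) : Prop := ∃ c : ℂ, (t.1, t.2, c) ∈ richUse A E q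
def p5 (A E : Finset ℂ) (k₁ : ℝ) (t : ℂ × ℂ) : Prop :=
  ∃ a ∈ A, a ≠ t.2 ∧ dist t.1 a = dist t.1 t.2 ∧ on E (bis a t.2) ≤ 2 ∧
    ((E.filter (fun e => dist e t.2 ≤ dist a t.2 / 4)).card : ℝ) < k₁ ∧
    k₁ ≤ ((E.filter (fun e => dist e t.2 ≤ (1/50) * dist t.2 t.1)).card : ℝ)
def p6 (A : Finset ℂ) (σ : ℂ → ℝ) (q : ℝ) (t : ℂ × ℂ) : Prop :=
  ∃ l ∈ heavy A q, t.2 ∈ l ∧ ∃ (w : ℂ) (u y : ℝ), ‖w‖ = 1 ∧ 0 < w.im ∧ |w.re| ≤ w.im / 4 ∧
    0 < u ∧ u ≤ |y| / 2 ∧ t.1 = t.2 + (u + y * Complex.I) * w ∧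
    ¬ Up (σ t.1) t.1 (t.2 + (2 * u : ℝ) * w) ∧ t.2 + (2 * u : ℝ) * w ∈ l

theorem classify (A E E₀ : Finset ℂ) (σ : ℂ → ℝ) (h s₁ k₁ μ q : ℝ)
    (hch : Chain A E σ (1/20) h) (hE₀ : E₀ ⊆ E) (hk : h + s₁ < k₁)
    (htame : ∀ x ∈ E₀, ((E.filter (fun e => Up (σ e) e x)).card : ℝ) ≤ s₁)
    (t : ℂ × ℂ) (ht : t ∈ prs A E₀ μ) :
    ∃ b ∈ cls A t.1 t.2, p1 E σ s₁ (t.1, b) ∨ p2 σ (t.1, b) ∨ p3 E k₁ (t.1, b) ∨
      p4 A E q (t.1, b) ∨ p5 A E k₁ (t.1, b) ∨ p6 A σ q (t.1, b) := by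
  obtain ⟨x, a⟩ := t
  simp only [prs, Finset.mem_filter, Finset.mem_product] at ht
  obtain ⟨⟨hx, ha⟩, hne, hreg, hM⟩ := ht
  simp only at *
  by_contra hcon
  push Not at hcon
  have hdist : ∀ b ∈ cls A x a, dist b x = dist a x := fun b hb => (cls_mem.mp hb).2
  have hsub : cls A x a ⊆ A := Finset.filter_subset _ _
  have hρ : 0 < dist a x := dist_pos.mpr hne
  obtain ⟨a', ha', c, hc, w, u, y, hw, hw2, hw3, hu, huy, hac, hxc, hfar⟩ :=
    close_pair A E σ h s₁ k₁ hch hk x (hE₀ hx) (htame x hx) (cls A x a) hsub hreg (dist a x) hρ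
      hdist (fun b hb => not_lt.mp (hcon b hb).1)
      (fun b hb => by
        have := (hcon b hb).2.2.1
        simp only [p3, not_lt] at this
        rw [hdist b hb] at this
        exact this)
  have hac' : a' ≠ c := by
    intro he
    rw [he] at hac
    have h0 : ((2 * u : ℝ) : ℂ) * w = 0 := by
      have : c + 0 = c + ((2 * u : ℝ) : ℂ) * w := by rw [add_zero]; exact hac
      exact (add_left_cancel this).symm
    rcases mul_eq_zero.mp h0 with h1 | h1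
    · have : (2 * u : ℝ) = 0 := by exact_mod_cast h1
      linarith
    · rw [h1] at hw; simp at hw
  have hd : dist x a' = dist x c := by
    rw [dist_comm x a', dist_comm x c, hdist a' ha', hdist c hc]
  by_cases hq : (on A (ln a' c) : ℝ) < q
  · by_cases h3 : 3 ≤ on E (bis a' c)
    · apply (hcon a' ha').2.2.2.1
      refine ⟨c, ?_⟩
      simp only [richUse, Finset.mem_filter, Finset.mem_product]
      exact ⟨⟨hE₀ hx, hsub ha', hsub hc⟩, hac', hd, hq, h3⟩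
    · apply (hcon c hc).2.2.2.2.1
      refine ⟨a', hsub ha', hac', hd, Nat.lt_succ_iff.mp (not_le.mp h3), hfar, ?_⟩
      have := (hcon c hc).2.2.1
      simpa only [p3, not_lt] using this
  · apply (hcon c hc).2.2.2.2.2
    refine ⟨ln a' c, ?_, ?_, w, u, y, hw, hw2, hw3, hu, huy, hxc, ?_, ?_⟩
    · simp only [heavy, Finset.mem_filter, Finset.mem_image, Finset.mem_offDiag]
      exact ⟨⟨(a', c), ⟨hsub ha', hsub hc, hac'⟩, rfl⟩, not_lt.mp hq⟩
    · simp only [ln, Set.mem_ofPred_eq]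
      ring
    · rw [← hac]
      exact (hcon a' ha').2.1
    · rw [← hac]
      simp [ln]

theorem prs_cls (A E₀ : Finset ℂ) (μ : ℝ) (t : ℂ × ℂ) (ht : t ∈ prs A E₀ μ) (b : ℂ)
    (hb : b ∈ cls A t.1 t.2) : (t.1, b) ∈ prs A E₀ μ := by
  obtain ⟨x, a⟩ := t
  simp only [prs, Finset.mem_filter, Finset.mem_product] at ht ⊢
  obtain ⟨⟨hx, ha⟩, hne, hreg, hM⟩ := ht
  simp only at *
  rw [cls_mem] at hb
  refine ⟨⟨hx, hb.1⟩, ?_, ?_, ?_⟩
  · have : 0 < dist b x := by rw [hb.2]; exact dist_pos.mpr hne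
    exact dist_pos.mp this
  · unfold Reg cls at *
    rw [hb.2]; exact hreg
  · rw [hb.2]; exact hM


theorem sum_by_snd (A : Finset ℂ) (Q : Finset (ℂ × ℂ)) (hQ : ∀ t ∈ Q, t.2 ∈ A) (f : ℂ × ℂ → ℝ) :
    ∑ t ∈ Q, f t = ∑ b ∈ A, ∑ x ∈ (Q.filter (fun t => t.2 = b)).image Prod.fst, f (x, b) := by
  rw [← Finset.sum_fiberwise_of_maps_to (g := fun t : ℂ × ℂ => t.2) hQ]
  apply Finset.sum_congr rfl
  intro b _
  rw [Finset.sum_image]
  · apply Finset.sum_congr rfl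
    intro t ht
    rw [Finset.mem_filter] at ht
    rw [← ht.2]
  · intro t ht t' ht' htt
    rw [Finset.mem_coe, Finset.mem_filter] at ht ht'
    exact Prod.ext htt (ht.2.trans ht'.2.symm)

/-- the weight -/
def gw (A : Finset ℂ) (x : ℂ) (r : ℝ) : ℝ := 1 / (M A x (2 * r) : ℝ)

theorem gw_nonneg (A : Finset ℂ) (x : ℂ) (r : ℝ) : 0 ≤ gw A x r := by
  unfold gw; positivity

theorem S1 (A E E₀ : Finset ℂ) (σ : ℂ → ℝ) (h s₁ μ : ℝ) (hch : Chain A E σ (1/20) h)
    (hE₀ : E₀ ⊆ E) (hs₁ : 0 < s₁) (hh : 0 ≤ h) (hμ : 0 < μ) (hhs : h * A.card ≤ s₁ * μ) :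
    ∑ t ∈ (prs A E₀ μ).filter (p1 E σ s₁), gw A t.1 (dist t.2 t.1) ≤ A.card := by
  have hcr : ∑ t ∈ (prs A E₀ μ).filter (p1 E σ s₁), gw A t.1 (dist t.2 t.1) ≤
      (((prs A E₀ μ).filter (p1 E σ s₁)).card : ℝ) / μ := by
    apply crude A _ μ hμ
    intro t ht
    rw [Finset.mem_filter] at ht
    have := ht.1
    simp only [prs, Finset.mem_filter] at this
    exact this.2.2.2
  set N := A.filter (fun b => s₁ < ((E.filter (fun e => Up (σ e) e b)).card : ℝ)) with hN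
  have hNc : (N.card : ℝ) ≤ μ := by
    have h1 : s₁ * N.card ≤ ∑ b ∈ N, ((E.filter (fun e => Up (σ e) e b)).card : ℝ) := by
      rw [mul_comm, ← nsmul_eq_mul]
      apply Finset.card_nsmul_le_sum
      intro b hb
      rw [hN, Finset.mem_filter] at hb
      exact hb.2.le
    have h2 : ∑ b ∈ N, ((E.filter (fun e => Up (σ e) e b)).card : ℝ) ≤
        ∑ b ∈ A, ((E.filter (fun e => Up (σ e) e b)).card : ℝ) := by
      apply Finset.sum_le_sum_of_subset_of_nonneg (Finset.filter_subset _ _)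
      intros; positivity
    have h3 : ∑ b ∈ A, ((E.filter (fun e => Up (σ e) e b)).card : ℝ) =
        ∑ e ∈ E, ((A.filter (fun b => Up (σ e) e b)).card : ℝ) := by
      have : ∑ b ∈ A, (E.filter (fun e => Up (σ e) e b)).card =
          ∑ e ∈ E, (A.filter (fun b => Up (σ e) e b)).card := by
        simp only [Finset.card_filter]
        rw [Finset.sum_comm]
      exact_mod_cast this
    have h4 : ∑ e ∈ E, ((A.filter (fun b => Up (σ e) e b)).card : ℝ) ≤ ∑ e ∈ E, h :=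
      Finset.sum_le_sum (fun e he => hch.low e he)
    have h5 : ∑ e ∈ E, h ≤ h * A.card := by
      rw [Finset.sum_const, nsmul_eq_mul, mul_comm]
      apply mul_le_mul_of_nonneg_left _ hh
      exact_mod_cast Finset.card_le_card hch.sub
    have h6 : s₁ * N.card ≤ s₁ * μ := by linarith
    exact le_of_mul_le_mul_left h6 hs₁
  have hcard : (((prs A E₀ μ).filter (p1 E σ s₁)).card : ℝ) ≤ A.card * μ := by
    have h1 : ((prs A E₀ μ).filter (p1 E σ s₁)).card ≤ (A ×ˢ N).card := by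
      apply Finset.card_le_card
      intro t ht
      simp only [Finset.mem_filter, prs, Finset.mem_product, p1] at ht
      simp only [Finset.mem_product, hN, Finset.mem_filter]
      exact ⟨hch.sub (hE₀ ht.1.1.1), ht.1.1.2, ht.2⟩
    rw [Finset.card_product] at h1
    calc (((prs A E₀ μ).filter (p1 E σ s₁)).card : ℝ) ≤ ((A.card * N.card : ℕ) : ℝ) := by
          exact_mod_cast h1
      _ = A.card * N.card := by push_cast; ring
      _ ≤ A.card * μ := by apply mul_le_mul_of_nonneg_left hNc; positivity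
  calc _ ≤ (((prs A E₀ μ).filter (p1 E σ s₁)).card : ℝ) / μ := hcr
    _ ≤ (A.card * μ) / μ := by gcongr
    _ = A.card := by field_simp

theorem S2 (A E E₀ : Finset ℂ) (σ : ℂ → ℝ) (h μ : ℝ) (hch : Chain A E σ (1/20) h)
    (hE₀ : E₀ ⊆ E) (hμ : 0 < μ) (hhμ : h ≤ μ) :
    ∑ t ∈ (prs A E₀ μ).filter (p2 σ), gw A t.1 (dist t.2 t.1) ≤ A.card := by
  have hcr : ∑ t ∈ (prs A E₀ μ).filter (p2 σ), gw A t.1 (dist t.2 t.1) ≤
      (((prs A E₀ μ).filter (p2 σ)).card : ℝ) / μ := by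
    apply crude A _ μ hμ
    intro t ht
    rw [Finset.mem_filter] at ht
    have := ht.1
    simp only [prs, Finset.mem_filter] at this
    exact this.2.2.2
  have hcard : (((prs A E₀ μ).filter (p2 σ)).card : ℝ) ≤ A.card * μ := by
    have h1 : ((prs A E₀ μ).filter (p2 σ)).card ≤ ((E₀ ×ˢ A).filter (p2 σ)).card := by
      apply Finset.card_le_card
      intro t ht
      simp only [Finset.mem_filter, prs, Finset.mem_product] at ht ⊢
      exact ⟨ht.1.1, ht.2⟩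
    have h2 : (((E₀ ×ˢ A).filter (p2 σ)).card : ℝ) =
        ∑ x ∈ E₀, ((A.filter (fun b => Up (σ x) x b)).card : ℝ) := by
      have : ((E₀ ×ˢ A).filter (p2 σ)).card =
          ∑ x ∈ E₀, (A.filter (fun b => Up (σ x) x b)).card := by
        simp only [Finset.card_filter]
        rw [Finset.sum_product]
        rfl
      exact_mod_cast this
    have h3 : ∑ x ∈ E₀, ((A.filter (fun b => Up (σ x) x b)).card : ℝ) ≤ ∑ x ∈ E₀, μ :=
      Finset.sum_le_sum (fun e he => (hch.low e (hE₀ he)).trans hhμ)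
    have h4 : ∑ x ∈ E₀, μ ≤ A.card * μ := by
      rw [Finset.sum_const, nsmul_eq_mul]
      apply mul_le_mul_of_nonneg_right _ hμ.le
      exact_mod_cast Finset.card_le_card (hE₀.trans hch.sub)
    have h1' : (((prs A E₀ μ).filter (p2 σ)).card : ℝ) ≤ (((E₀ ×ˢ A).filter (p2 σ)).card : ℝ) := by
      exact_mod_cast h1
    linarith
  calc _ ≤ (((prs A E₀ μ).filter (p2 σ)).card : ℝ) / μ := hcr
    _ ≤ (A.card * μ) / μ := by gcongr
    _ = A.card := by field_simp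

theorem gw_le (A : Finset ℂ) (x : ℂ) (hx : x ∈ A) (r : ℝ) (hr : 0 ≤ r) :
    gw A x r ≤ 1 / (M A x r : ℝ) := wt_le A x hx r hr

theorem S3 (A E E₀ : Finset ℂ) (k₁ μ : ℝ) (hE : E ⊆ A)
    (hE₀ : E₀ ⊆ E) (hμ : 0 < μ) (hk₁ : 0 ≤ k₁) (hkμ : k₁ ≤ μ) :
    ∑ t ∈ (prs A E₀ μ).filter (p3 E k₁), gw A t.1 (dist t.2 t.1) ≤ 23105 * A.card := by
  rw [sum_by_snd A _ (by
    intro t ht
    simp only [Finset.mem_filter, prs, Finset.mem_product] at ht
    exact ht.1.1.2)]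
  have hb : ∀ b ∈ A, ∑ x ∈ (((prs A E₀ μ).filter (p3 E k₁)).filter (fun t => t.2 = b)).image Prod.fst,
      gw A (x, b).1 (dist (x, b).2 (x, b).1) ≤ 23105 := by
    intro b _
    have hmem : ∀ x ∈ (((prs A E₀ μ).filter (p3 E k₁)).filter (fun t => t.2 = b)).image Prod.fst,
        x ∈ E ∧ x ≠ b ∧ ((E.filter (fun e => dist e b ≤ (1/50) * dist b x)).card : ℝ) < k₁ ∧
          μ ≤ (M A x (dist b x) : ℝ) := by
      intro x hx
      simp only [Finset.mem_image, Finset.mem_filter, prs, Finset.mem_product] at hx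
      obtain ⟨t, ⟨⟨⟨⟨hx1, hx2⟩, hne, hreg, hM⟩, h3⟩, hb⟩, hxt⟩ := hx
      subst hxt
      subst hb
      refine ⟨hE₀ hx1, hne.symm, h3, hM⟩
    have := alpha_bound A E hE (1/50) k₁ μ (by norm_num) (by norm_num) hk₁ hμ b _ hmem
    calc _ ≤ ∑ x ∈ (((prs A E₀ μ).filter (p3 E k₁)).filter (fun t => t.2 = b)).image Prod.fst,
        (1:ℝ) / (M A x (dist b x) : ℝ) := by
          apply Finset.sum_le_sum
          intro x hx
          exact gw_le A x (hE (hmem x hx).1) _ dist_nonneg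
      _ ≤ _ := this
      _ ≤ 23105 := by
          have : k₁ / μ ≤ 1 := (div_le_one hμ).mpr hkμ
          norm_num
          linarith
  calc _ ≤ ∑ b ∈ A, (23105 : ℝ) := Finset.sum_le_sum hb
    _ = 23105 * A.card := by rw [Finset.sum_const, nsmul_eq_mul]; ring

theorem S4 (A E E₀ : Finset ℂ) (μ q : ℝ) (hμ : 0 < μ)
    (hrich : ((richUse A E q).card : ℝ) ≤ μ * A.card) :
    ∑ t ∈ (prs A E₀ μ).filter (p4 A E q), gw A t.1 (dist t.2 t.1) ≤ A.card := by
  have hcr : ∑ t ∈ (prs A E₀ μ).filter (p4 A E q), gw A t.1 (dist t.2 t.1) ≤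
      (((prs A E₀ μ).filter (p4 A E q)).card : ℝ) / μ := by
    apply crude A _ μ hμ
    intro t ht
    rw [Finset.mem_filter] at ht
    have := ht.1
    simp only [prs, Finset.mem_filter] at this
    exact this.2.2.2
  have hcard : (((prs A E₀ μ).filter (p4 A E q)).card : ℝ) ≤ A.card * μ := by
    have h' : ∀ t : ℂ × ℂ, ∃ c : ℂ, p4 A E q t → (t.1, t.2, c) ∈ richUse A E q := by
      intro t
      by_cases ht : p4 A E q t
      · obtain ⟨c, hc⟩ := ht; exact ⟨c, fun _ => hc⟩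
      · exact ⟨0, fun h => absurd h ht⟩
    choose φ hφ using h'
    have h1 : ((prs A E₀ μ).filter (p4 A E q)).card ≤ (richUse A E q).card := by
      apply Finset.card_le_card_of_injOn (fun t => (t.1, t.2, φ t))
      · intro t ht
        rw [Finset.mem_coe, Finset.mem_filter] at ht
        exact hφ t ht.2
      · intro t _ t' _ htt
        simp only [Prod.mk.injEq] at htt
        exact Prod.ext htt.1 htt.2.1
    have h1' : (((prs A E₀ μ).filter (p4 A E q)).card : ℝ) ≤ ((richUse A E q).card : ℝ) := by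
      exact_mod_cast h1
    linarith
  calc _ ≤ (((prs A E₀ μ).filter (p4 A E q)).card : ℝ) / μ := hcr
    _ ≤ (A.card * μ) / μ := by gcongr
    _ = A.card := by field_simp

theorem S5 (A E E₀ : Finset ℂ) (k₁ μ : ℝ) (hE₀ : E₀ ⊆ E) :
    ∑ t ∈ (prs A E₀ μ).filter (p5 A E k₁), gw A t.1 (dist t.2 t.1) ≤ 2 * A.card := by
  rw [sum_by_snd A _ (by
    intro t ht
    simp only [Finset.mem_filter, prs, Finset.mem_product] at ht
    exact ht.1.1.2)]
  have hb : ∀ b ∈ A, ∑ x ∈ (((prs A E₀ μ).filter (p5 A E k₁)).filter (fun t => t.2 = b)).image Prod.fst,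
      gw A (x, b).1 (dist (x, b).2 (x, b).1) ≤ 2 := by
    intro b _
    set X := (((prs A E₀ μ).filter (p5 A E k₁)).filter (fun t => t.2 = b)).image Prod.fst with hX
    have hmem : ∀ x ∈ X, x ∈ E ∧ p5 A E k₁ (x, b) := by
      intro x hx
      simp only [hX, Finset.mem_image, Finset.mem_filter, prs, Finset.mem_product] at hx
      obtain ⟨t, ⟨⟨⟨⟨hx1, hx2⟩, hne, hreg, hM⟩, h3⟩, hb⟩, hxt⟩ := hx
      subst hxt
      subst hb
      exact ⟨hE₀ hx1, h3⟩
    have h' : ∀ x : ℂ, ∃ a : ℂ, x ∈ X → a ∈ A ∧ a ≠ b ∧ dist x a = dist x b ∧ on E (bis a b) ≤ 2 ∧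
        ((E.filter (fun e => dist e b ≤ dist a b / 4)).card : ℝ) < k₁ ∧
        k₁ ≤ ((E.filter (fun e => dist e b ≤ (1/50) * dist b x)).card : ℝ) := by
      intro x
      by_cases hx : x ∈ X
      · obtain ⟨a, ha⟩ := (hmem x hx).2
        exact ⟨a, fun _ => ha⟩
      · exact ⟨0, fun h => absurd h hx⟩
    choose φ hφ using h'
    have := lambda_bound A E (1/50) k₁ (by norm_num) (by norm_num) b (X.image (fun x => (x, φ x))) (by
      intro t ht
      rw [Finset.mem_image] at ht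
      obtain ⟨x, hx, rfl⟩ := ht
      obtain ⟨h1, h2, h3, h4, h5, h6⟩ := hφ x hx
      exact ⟨(hmem x hx).1, h1, h2, h3, h4, h5, h6⟩)
    rw [Finset.sum_image (by
      intro x _ x' _ hxx
      exact (Prod.ext_iff.mp hxx).1)] at this
    exact this
  calc _ ≤ ∑ b ∈ A, (2 : ℝ) := Finset.sum_le_sum hb
    _ = 2 * A.card := by rw [Finset.sum_const, nsmul_eq_mul]; ring

theorem sum_biUnion_le' {ι α : Type*} [DecidableEq α] (s : Finset ι) (t : ι → Finset α)
    (f : α → ℝ) (hf : ∀ a, 0 ≤ f a) :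
    ∑ a ∈ s.biUnion t, f a ≤ ∑ i ∈ s, ∑ a ∈ t i, f a := by
  induction s using Finset.induction_on with
  | empty => simp
  | insert i s hi ih =>
    rw [Finset.biUnion_insert, Finset.sum_insert hi]
    have := Finset.sum_union_inter (s₁ := t i) (s₂ := s.biUnion t) (f := f)
    have h0 : 0 ≤ ∑ a ∈ t i ∩ s.biUnion t, f a := Finset.sum_nonneg (fun a _ => hf a)
    linarith

theorem S6 (A E E₀ : Finset ℂ) (σ : ℂ → ℝ) (h μ K : ℝ) (hch : Chain A E σ (1/20) h)
    (hE₀ : E₀ ⊆ E) (hh : 0 ≤ h) (hμ : 0 < μ) (hhμ : h ≤ μ) (hK : 2 ≤ K) :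
    ∑ t ∈ (prs A E₀ μ).filter (p6 A σ (K * Real.sqrt A.card)), gw A t.1 (dist t.2 t.1) ≤
      486 * A.card := by
  set q := K * Real.sqrt A.card with hq
  rw [sum_by_snd A _ (by
    intro t ht
    simp only [Finset.mem_filter, prs, Finset.mem_product] at ht
    exact ht.1.1.2)]
  have hb : ∀ b ∈ A, ∑ x ∈ (((prs A E₀ μ).filter (p6 A σ q)).filter (fun t => t.2 = b)).image Prod.fst,
      gw A (x, b).1 (dist (x, b).2 (x, b).1) ≤
        162 * (((heavy A q).filter (fun l => b ∈ l)).card : ℝ) := by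
    intro b _
    set X := (((prs A E₀ μ).filter (p6 A σ q)).filter (fun t => t.2 = b)).image Prod.fst with hX
    have hmem : ∀ x ∈ X, x ∈ E ∧ μ ≤ (M A x (dist b x) : ℝ) ∧ p6 A σ q (x, b) := by
      intro x hx
      simp only [hX, Finset.mem_image, Finset.mem_filter, prs, Finset.mem_product] at hx
      obtain ⟨t, ⟨⟨⟨⟨hx1, hx2⟩, hne, hreg, hM⟩, h3⟩, hb⟩, hxt⟩ := hx
      subst hxt
      subst hb
      exact ⟨hE₀ hx1, hM, h3⟩
    set U : Set ℂ → ℂ → Prop := fun l x => ∃ (w : ℂ) (u y : ℝ), ‖w‖ = 1 ∧ 0 < w.im ∧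
      |w.re| ≤ w.im / 4 ∧ 0 < u ∧ u ≤ |y| / 2 ∧ x = b + (u + y * Complex.I) * w ∧
      ¬ Up (σ x) x (b + (2 * u : ℝ) * w) ∧ b + (2 * u : ℝ) * w ∈ l with hU
    have hcov : X ⊆ ((heavy A q).filter (fun l => b ∈ l)).biUnion (fun l => X.filter (U l)) := by
      intro x hx
      obtain ⟨_, _, l, hl, hbl, hrest⟩ := hmem x hx
      rw [Finset.mem_biUnion]
      refine ⟨l, Finset.mem_filter.mpr ⟨hl, hbl⟩, Finset.mem_filter.mpr ⟨hx, hrest⟩⟩
    have hl : ∀ l ∈ (heavy A q).filter (fun l => b ∈ l),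
        ∑ x ∈ X.filter (U l), gw A (x, b).1 (dist (x, b).2 (x, b).1) ≤ 162 := by
      intro l hl
      rw [Finset.mem_filter] at hl
      obtain ⟨hl, hbl⟩ := hl
      rcases (X.filter (U l)).eq_empty_or_nonempty with hemp | ⟨x₀, hx₀⟩
      · rw [hemp]; norm_num
      · rw [Finset.mem_filter] at hx₀
        obtain ⟨hx₀X, w, u₀, y₀, hw, hw2, hw3, hu₀, hy₀, hx₀', hup₀, hin₀⟩ := hx₀
        have hlpr : ∃ p r : ℂ, p ≠ r ∧ l = ln p r := by
          simp only [heavy, Finset.mem_filter, Finset.mem_image, Finset.mem_offDiag] at hl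
          obtain ⟨⟨t, ⟨_, _, hne⟩, rfl⟩, _⟩ := hl
          exact ⟨t.1, t.2, hne, rfl⟩
        obtain ⟨p, r, hpr, rfl⟩ := hlpr
        have := heavy_bound A E σ h μ hch hμ hh b w hw hw2 hw3 (X.filter (U (ln p r))) (by
          intro x hx
          rw [Finset.mem_filter] at hx
          obtain ⟨hxX, w', u, y, hw', hw2', hw3', hu, hy, hx', hup, hin⟩ := hx
          have hww : w = w' := dir_unique p r b w w' u₀ u hpr hu₀ hu hw hw' hw2 hw2' hbl hin₀ hin
          subst hww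
          exact ⟨(hmem x hxX).1, (hmem x hxX).2.1, u, y, hu, hy, hx', hup⟩)
        calc _ ≤ ∑ x ∈ X.filter (U (ln p r)), (1:ℝ) / (M A x (dist b x) : ℝ) := by
              apply Finset.sum_le_sum
              intro x hx
              rw [Finset.mem_filter] at hx
              exact gw_le A x (hch.sub (hmem x hx.1).1) _ dist_nonneg
          _ ≤ _ := this
          _ ≤ 162 := by
              have : h / μ ≤ 1 := (div_le_one hμ).mpr hhμ
              linarith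
    calc ∑ x ∈ X, gw A (x, b).1 (dist (x, b).2 (x, b).1)
        ≤ ∑ x ∈ ((heavy A q).filter (fun l => b ∈ l)).biUnion (fun l => X.filter (U l)),
            gw A (x, b).1 (dist (x, b).2 (x, b).1) := by
          apply Finset.sum_le_sum_of_subset_of_nonneg hcov
          intros; exact gw_nonneg _ _ _
      _ ≤ ∑ l ∈ (heavy A q).filter (fun l => b ∈ l), ∑ x ∈ X.filter (U l),
            gw A (x, b).1 (dist (x, b).2 (x, b).1) := by
          apply sum_biUnion_le'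
          intros; exact gw_nonneg _ _ _
      _ ≤ ∑ l ∈ (heavy A q).filter (fun l => b ∈ l), (162:ℝ) := Finset.sum_le_sum hl
      _ = _ := by rw [Finset.sum_const, nsmul_eq_mul]; ring
  calc _ ≤ ∑ b ∈ A, 162 * (((heavy A q).filter (fun l => b ∈ l)).card : ℝ) := Finset.sum_le_sum hb
    _ = 162 * ∑ l ∈ heavy A q, (on A l : ℝ) := by
        rw [← Finset.mul_sum]
        congr 1
        have : ∑ b ∈ A, ((heavy A q).filter (fun l => b ∈ l)).card = ∑ l ∈ heavy A q, on A l := by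
          simp only [Finset.card_filter, on]
          rw [Finset.sum_comm]
        exact_mod_cast this
    _ ≤ 162 * (3 * A.card) := by
        apply mul_le_mul_of_nonneg_left _ (by norm_num)
        exact heavy_sum A K hK
    _ = 486 * A.card := by ring

theorem charge_pred (A E₀ : Finset ℂ) (hA : NC A) (μ : ℝ) (P : ℂ × ℂ → Prop) (C : ℝ)
    (h : ∑ t ∈ (prs A E₀ μ).filter P, gw A t.1 (dist t.2 t.1) ≤ C * A.card) :
    ∑ t ∈ (prs A E₀ μ).filter (fun t => ∃ b ∈ cls A t.1 t.2, P (t.1, b)), gw A t.1 (dist t.2 t.1) ≤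
      3 * (C * A.card) := by
  refine (charge A hA _ ((prs A E₀ μ).filter P) (gw A) (gw_nonneg A) ?_ ?_).trans
    (mul_le_mul_of_nonneg_left h (by norm_num))
  · intro t ht
    simp only [Finset.mem_filter, prs, Finset.mem_product] at ht
    exact ht.1.1.2
  · intro t ht
    rw [Finset.mem_filter] at ht
    obtain ⟨ht1, b, hb, hP⟩ := ht
    exact ⟨b, hb, Finset.mem_filter.mpr ⟨prs_cls A E₀ μ t ht1 b hb, hP⟩⟩

theorem upper_bound' : ∃ K₂ : ℝ, 0 < K₂ ∧ ∀ (A E E₀ : Finset ℂ) (σ : ℂ → ℝ) (h s₁ k₁ μ K : ℝ),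
    NC A → Chain A E σ (1/20) h → E₀ ⊆ E → 0 ≤ h → 0 < s₁ → h + s₁ < k₁ → k₁ ≤ μ →
    h * A.card ≤ s₁ * μ → 2 ≤ K →
    (∀ x ∈ E₀, ((E.filter (fun e => Up (σ e) e x)).card : ℝ) ≤ s₁) →
    ((richUse A E (K * Real.sqrt A.card)).card : ℝ) ≤ μ * A.card →
    ∑ t ∈ prs A E₀ μ, (1:ℝ) / (M A t.1 (2 * dist t.2 t.1) : ℝ) ≤ K₂ * A.card := by
  refine ⟨100000, by norm_num, ?_⟩
  intro A E E₀ σ h s₁ k₁ μ K hA hch hE₀ hh hs₁ hk hkμ hhs hK htame hrich
  have hk₁ : 0 ≤ k₁ := by linarith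
  have hμ : 0 < μ := by linarith
  have hhμ : h ≤ μ := by linarith
  set q := K * Real.sqrt A.card with hq
  have hE : E ⊆ A := hch.sub
  have c1 := charge_pred A E₀ hA μ (p1 E σ s₁) 1
    (by rw [one_mul]; exact S1 A E E₀ σ h s₁ μ hch hE₀ hs₁ hh hμ hhs)
  have c2 := charge_pred A E₀ hA μ (p2 σ) 1
    (by rw [one_mul]; exact S2 A E E₀ σ h μ hch hE₀ hμ hhμ)
  have c3 := charge_pred A E₀ hA μ (p3 E k₁) 23105 (S3 A E E₀ k₁ μ hE hE₀ hμ hk₁ hkμ)
  have c4 := charge_pred A E₀ hA μ (p4 A E q) 1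
    (by rw [one_mul]; exact S4 A E E₀ μ q hμ hrich)
  have c5 := charge_pred A E₀ hA μ (p5 A E k₁) 2 (S5 A E E₀ k₁ μ hE₀)
  have c6 := charge_pred A E₀ hA μ (p6 A σ q) 486 (S6 A E E₀ σ h μ K hch hE₀ hh hμ hhμ hK)
  set F : (ℂ × ℂ → Prop) → Finset (ℂ × ℂ) :=
    fun P => (prs A E₀ μ).filter (fun t => ∃ b ∈ cls A t.1 t.2, P (t.1, b)) with hF
  have hcov : prs A E₀ μ ⊆ F (p1 E σ s₁) ∪ (F (p2 σ) ∪ (F (p3 E k₁) ∪ (F (p4 A E q) ∪
      (F (p5 A E k₁) ∪ F (p6 A σ q))))) := by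
    intro t ht
    obtain ⟨b, hb, hcl⟩ := classify A E E₀ σ h s₁ k₁ μ q hch hE₀ hk htame t ht
    simp only [Finset.mem_union, hF, Finset.mem_filter]
    rcases hcl with h | h | h | h | h | h
    · exact Or.inl ⟨ht, b, hb, h⟩
    · exact Or.inr (Or.inl ⟨ht, b, hb, h⟩)
    · exact Or.inr (Or.inr (Or.inl ⟨ht, b, hb, h⟩))
    · exact Or.inr (Or.inr (Or.inr (Or.inl ⟨ht, b, hb, h⟩)))
    · exact Or.inr (Or.inr (Or.inr (Or.inr (Or.inl ⟨ht, b, hb, h⟩))))
    · exact Or.inr (Or.inr (Or.inr (Or.inr (Or.inr ⟨ht, b, hb, h⟩))))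
  have hun : ∀ (S T : Finset (ℂ × ℂ)), ∑ t ∈ S ∪ T, gw A t.1 (dist t.2 t.1) ≤
      ∑ t ∈ S, gw A t.1 (dist t.2 t.1) + ∑ t ∈ T, gw A t.1 (dist t.2 t.1) := by
    intro S T
    have h1 := Finset.sum_union_inter (s₁ := S) (s₂ := T) (f := fun t : ℂ × ℂ => gw A t.1 (dist t.2 t.1))
    have h0 : 0 ≤ ∑ t ∈ S ∩ T, gw A t.1 (dist t.2 t.1) := Finset.sum_nonneg (fun a _ => gw_nonneg _ _ _)
    linarith
  have hsum : ∑ t ∈ prs A E₀ μ, gw A t.1 (dist t.2 t.1) ≤ 100000 * A.card := by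
    have h1 : ∑ t ∈ prs A E₀ μ, gw A t.1 (dist t.2 t.1) ≤ ∑ t ∈ F (p1 E σ s₁) ∪ (F (p2 σ) ∪
        (F (p3 E k₁) ∪ (F (p4 A E q) ∪ (F (p5 A E k₁) ∪ F (p6 A σ q))))), gw A t.1 (dist t.2 t.1) := by
      apply Finset.sum_le_sum_of_subset_of_nonneg hcov
      intros; exact gw_nonneg _ _ _
    have h2 := hun (F (p1 E σ s₁)) (F (p2 σ) ∪
        (F (p3 E k₁) ∪ (F (p4 A E q) ∪ (F (p5 A E k₁) ∪ F (p6 A σ q)))))
    have h3 := hun (F (p2 σ)) (F (p3 E k₁) ∪ (F (p4 A E q) ∪ (F (p5 A E k₁) ∪ F (p6 A σ q))))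
    have h4 := hun (F (p3 E k₁)) (F (p4 A E q) ∪ (F (p5 A E k₁) ∪ F (p6 A σ q)))
    have h5 := hun (F (p4 A E q)) (F (p5 A E k₁) ∪ F (p6 A σ q))
    have h6 := hun (F (p5 A E k₁)) (F (p6 A σ q))
    have h0 : (0:ℝ) ≤ A.card := by positivity
    linarith
  exact hsum

end

end Pool.Agent.DD.H60
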